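import Pool.Agent.ZT.Model
import Pool.Agent.IET.Fin

/-!
# Interval exchange transformations with flips

A permutation `f` of `[0, 1)` which is isometric on the components of the complement of a finite set
acts on the one-sided germs of points; the germs `(x, +)` and `(x, -)` are the points `x / 2` and
`1 - x / 2` of `[0, 1)`, and the action is an interval exchange transformation.
-/

set_option autoImplicit false

namespace Pool.Agent.IET

open Pool.Agent.Helper29.BA Pool.Agent.Helper29.PA Pool.Agent.T59 Filter Topology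

/-- Piecewise isometries: for some finite set `F`, distances of points of the same component of the
complement of `F` are preserved. -/
def IsPI (f : Equiv.Perm (Set.Ico (0 : ℝ) 1)) : Prop :=
  ∃ F : Finset ℝ, ∀ x y : Set.Ico (0 : ℝ) 1,
    (∀ c ∈ F, (c < (x : ℝ) ∧ c < (y : ℝ)) ∨ ((x : ℝ) < c ∧ (y : ℝ) < c)) →
    |(f x : ℝ) - f y| = |(x : ℝ) - y|

/-- The tent. -/
noncomputable def tent (u : ℝ) : ℝ := if u < 1 / 2 then 2 * u else 2 - 2 * u

theorem tent_lt {u : ℝ} (h : u < 1 / 2) : tent u = 2 * u := if_pos h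

theorem tent_ge {u : ℝ} (h : 1 / 2 ≤ u) : tent u = 2 - 2 * u := if_neg (not_lt.2 h)

/-- The germ at `u` goes to the germ at `u'`. -/
def R (f : Equiv.Perm (Set.Ico (0 : ℝ) 1)) (u u' : ℝ) : Prop :=
  ∀ᶠ s in 𝓝[>] (0 : ℝ), ∀ x : Set.Ico (0 : ℝ) 1, (x : ℝ) = tent (u + s) →
    (f x : ℝ) = tent (u' + s)

theorem small {d : ℝ} (h : 0 < d) : ∀ᶠ s in 𝓝[>] (0 : ℝ), 0 < s ∧ s < d :=
  Ioo_mem_nhdsGT h

/-- Close to `u` the tent has values in `[0, 1)`. -/
theorem tent_mem {u : ℝ} (h0 : 0 ≤ u) (h1 : u < 1) :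
    ∀ᶠ s in 𝓝[>] (0 : ℝ), tent (u + s) ∈ Set.Ico (0 : ℝ) 1 := by
  rcases lt_or_ge u (1 / 2) with h | h
  · filter_upwards [small (sub_pos.2 h)] with s hs
    rw [tent_lt (by linarith [hs.2])]
    constructor <;> linarith [hs.1, hs.2]
  · filter_upwards [small (sub_pos.2 h1)] with s hs
    rw [tent_ge (by linarith [hs.1])]
    constructor <;> linarith [hs.1, hs.2]

theorem R_one (u : ℝ) : R 1 u u := Eventually.of_forall fun _ _ hx => hx

theorem R_mul {f g : Equiv.Perm (Set.Ico (0 : ℝ) 1)} {u v w : ℝ} (h : R g u v) (h' : R f v w) :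
    R (f * g) u w := by
  filter_upwards [h, h'] with s h1 h2 x hx
  exact h2 _ (h1 x hx)

theorem R_inv {f : Equiv.Perm (Set.Ico (0 : ℝ) 1)} {u v : ℝ} (hu : 0 ≤ u ∧ u < 1) (h : R f u v) :
    R f⁻¹ v u := by
  filter_upwards [h, tent_mem hu.1 hu.2] with s h1 h2 y hy
  have h3 := h1 ⟨tent (u + s), h2⟩ rfl
  have h4 : f ⟨tent (u + s), h2⟩ = y := Subtype.ext (h3.trans hy.symm)
  rw [← h4]
  change ((f.symm (f ⟨tent (u + s), h2⟩) : Set.Ico (0 : ℝ) 1) : ℝ) = _
  rw [Equiv.symm_apply_apply]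

theorem tent_inj {u v : ℝ} (h : ∀ᶠ s in 𝓝[>] (0 : ℝ), tent (u + s) = tent (v + s)) : u = v := by
  obtain ⟨e, he, hs⟩ := (mem_nhdsGT_iff_exists_Ioo_subset (a := (0 : ℝ))).1 h
  have he' : (0 : ℝ) < e := he
  have key : ∀ w : ℝ, ∃ d > 0, (∀ s, 0 < s → s < d → tent (w + s) = 2 * (w + s)) ∨
      (∀ s, 0 < s → s < d → tent (w + s) = 2 - 2 * (w + s)) := by
    intro w
    rcases lt_or_ge w (1 / 2) with h | h
    · exact ⟨1 / 2 - w, by linarith, Or.inl fun s _ h2 => tent_lt (by linarith)⟩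
    · exact ⟨1, by linarith, Or.inr fun s h1 _ => tent_ge (by linarith)⟩
  obtain ⟨d, hd, h1⟩ := key u
  obtain ⟨d', hd', h2⟩ := key v
  have hm : 0 < min e (min d d') := lt_min he' (lt_min hd hd')
  set m := min e (min d d') with hm'
  have hme : m ≤ e := min_le_left _ _
  have hmd : m ≤ d := (min_le_right _ _).trans (min_le_left _ _)
  have hmd' : m ≤ d' := (min_le_right _ _).trans (min_le_right _ _)
  have e1 : tent (u + m / 2) = tent (v + m / 2) := hs ⟨by linarith, by linarith⟩
  have e2 : tent (u + m / 3) = tent (v + m / 3) := hs ⟨by linarith, by linarith⟩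
  rcases h1 with h1 | h1 <;> rcases h2 with h2 | h2 <;>
    rw [h1 _ (by linarith) (by linarith), h2 _ (by linarith) (by linarith)] at e1 e2 <;>
    linarith

theorem R_unique {f : Equiv.Perm (Set.Ico (0 : ℝ) 1)} {u v w : ℝ} (hu : 0 ≤ u ∧ u < 1)
    (h : R f u v) (h' : R f u w) : v = w := by
  apply tent_inj
  filter_upwards [h, h', tent_mem hu.1 hu.2] with s h1 h2 h3
  exact (h1 ⟨_, h3⟩ rfl).symm.trans (h2 ⟨_, h3⟩ rfl)

/-- Isometries of an interval. -/
theorem affine {u v : ℝ} {q : ℝ → ℝ}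
    (h : ∀ s t, u < s → s < v → u < t → t < v → |q s - q t| = 2 * |s - t|) :
    ∃ α : ℝ, (∀ t, u < t → t < v → q t = α + 2 * t) ∨ (∀ t, u < t → t < v → q t = α - 2 * t) := by
  by_cases huv : u < v
  swap
  · exact ⟨0, Or.inl fun t h1 h2 => absurd (h1.trans h2) huv⟩
  -- two points
  set a := (2 * u + v) / 3 with ha
  set b := (u + 2 * v) / 3 with hb
  have ha1 : u < a := by rw [ha]; linarith
  have ha2 : a < v := by rw [ha]; linarith
  have hb1 : u < b := by rw [hb]; linarith
  have hb2 : b < v := by rw [hb]; linarith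
  have hab : a < b := by rw [ha, hb]; linarith
  have h0 := h b a hb1 hb2 ha1 ha2
  rw [abs_of_pos (sub_pos.2 hab)] at h0
  have key : ∀ t, u < t → t < v → (q b - q a = 2 * (b - a) → q t = q a + 2 * (t - a)) ∧
      (q b - q a = - (2 * (b - a)) → q t = q a - 2 * (t - a)) := by
    intro t ht1 ht2
    have e1 := h t a ht1 ht2 ha1 ha2
    have e2 := h t b ht1 ht2 hb1 hb2
    have f1 : q t - q a = 2 * (t - a) ∨ q t - q a = - (2 * (t - a)) := by
      rcases abs_cases (q t - q a) with ⟨x1, _⟩ | ⟨x1, _⟩ <;>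
        rcases abs_cases (t - a) with ⟨y1, _⟩ | ⟨y1, _⟩ <;> rw [x1, y1] at e1
      · left; linarith
      · right; linarith
      · right; linarith
      · left; linarith
    have f2 : q t - q b = 2 * (t - b) ∨ q t - q b = - (2 * (t - b)) := by
      rcases abs_cases (q t - q b) with ⟨x1, _⟩ | ⟨x1, _⟩ <;>
        rcases abs_cases (t - b) with ⟨y1, _⟩ | ⟨y1, _⟩ <;> rw [x1, y1] at e2
      · left; linarith
      · right; linarith
      · right; linarith
      · left; linarith
    constructor <;> intro hq <;> rcases f1 with f1 | f1 <;> rcases f2 with f2 | f2 <;> linarith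
  rcases abs_cases (q b - q a) with ⟨x1, _⟩ | ⟨x1, _⟩
  · refine ⟨q a - 2 * a, Or.inl fun t h1 h2 => ?_⟩
    have := (key t h1 h2).1 (by linarith)
    linarith
  · refine ⟨q a + 2 * a, Or.inr fun t h1 h2 => ?_⟩
    have := (key t h1 h2).2 (by linarith)
    linarith

/-- Between cuts `f` is a translation in the coordinates of germs. -/
theorem local_tr {f : Equiv.Perm (Set.Ico (0 : ℝ) 1)} {F : Finset ℝ}
    (hF : ∀ x y : Set.Ico (0 : ℝ) 1,
      (∀ c ∈ F, (c < (x : ℝ) ∧ c < (y : ℝ)) ∨ ((x : ℝ) < c ∧ (y : ℝ) < c)) →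
      |(f x : ℝ) - f y| = |(x : ℝ) - y|) {u v : ℝ} (h0 : 0 ≤ u) (huv : u < v) (h1 : v ≤ 1)
    (hc : ∀ c ∈ F, ∀ t, u < t → t < v → t ≠ c / 2 ∧ t ≠ 1 - c / 2)
    (hh : ¬ (u < 1 / 2 ∧ 1 / 2 < v)) :
    ∃ β : ℝ, (∀ t, u ≤ t → t < v → 0 ≤ t + β ∧ t + β < 1) ∧
      ∀ t, u < t → t < v → ∀ x : Set.Ico (0 : ℝ) 1, (x : ℝ) = tent t →
        (f x : ℝ) = tent (t + β) := by
  have hmem : ∀ t, u < t → t < v → tent t ∈ Set.Ico (0 : ℝ) 1 := by
    intro t ht1 ht2
    rcases lt_or_ge t (1 / 2) with h | h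
    · rw [tent_lt h]
      constructor <;> linarith
    · rw [tent_ge h]
      refine ⟨by linarith, ?_⟩
      by_contra hcon
      exact hh ⟨by linarith, by linarith⟩
  have hside : (∀ t, u < t → t < v → tent t = 2 * t) ∨ (∀ t, u < t → t < v → tent t = 2 - 2 * t) := by
    rcases lt_or_ge u (1 / 2) with h | h
    · have : v ≤ 1 / 2 := by
        by_contra hcon
        exact hh ⟨h, not_le.1 hcon⟩
      exact Or.inl fun t _ h2 => tent_lt (by linarith)
    · exact Or.inr fun t h1 _ => tent_ge (by linarith)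
  let q : ℝ → ℝ := fun t => if ht : u < t ∧ t < v then (f ⟨tent t, hmem t ht.1 ht.2⟩ : ℝ) else 0
  have hq : ∀ t (a : u < t) (b : t < v), q t = f ⟨tent t, hmem t a b⟩ := fun t a b => dif_pos ⟨a, b⟩
  have hiso : ∀ s t, u < s → s < v → u < t → t < v → |q s - q t| = 2 * |s - t| := by
    intro s t hs1 hs2 ht1 ht2
    rw [hq s hs1 hs2, hq t ht1 ht2, hF]
    · rcases hside with h | h
      · change |tent s - tent t| = _
        rw [h s hs1 hs2, h t ht1 ht2, ← mul_sub, abs_mul, abs_of_pos (two_pos)]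
      · change |tent s - tent t| = _
        rw [h s hs1 hs2, h t ht1 ht2]
        have : 2 - 2 * s - (2 - 2 * t) = - (2 * (s - t)) := by ring
        rw [this, abs_neg, abs_mul, abs_of_pos (two_pos)]
    · intro c hcF
      change (c < tent s ∧ c < tent t) ∨ (tent s < c ∧ tent t < c)
      have g1 := fun r (a : u < r) (b : r < v) => hc c hcF r a b
      by_contra hcon
      rcases hside with h | h
      · rw [h s hs1 hs2, h t ht1 ht2] at hcon
        have hin : u < c / 2 ∧ c / 2 < v := by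
          rcases lt_trichotomy c (2 * s) with x | x | x
          · have : ¬ c < 2 * t := fun y => hcon (Or.inl ⟨x, y⟩)
            constructor <;> linarith
          · constructor <;> linarith
          · have : ¬ 2 * t < c := fun y => hcon (Or.inr ⟨x, y⟩)
            constructor <;> linarith
        exact (g1 _ hin.1 hin.2).1 rfl
      · rw [h s hs1 hs2, h t ht1 ht2] at hcon
        have hin : u < 1 - c / 2 ∧ 1 - c / 2 < v := by
          rcases lt_trichotomy c (2 - 2 * s) with x | x | x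
          · have : ¬ c < 2 - 2 * t := fun y => hcon (Or.inl ⟨x, y⟩)
            constructor <;> linarith
          · constructor <;> linarith
          · have : ¬ 2 - 2 * t < c := fun y => hcon (Or.inr ⟨x, y⟩)
            constructor <;> linarith
        exact (g1 _ hin.1 hin.2).2 rfl
  have hq0 : ∀ t, u < t → t < v → 0 ≤ q t ∧ q t < 1 := by
    intro t a b
    rw [hq t a b]
    exact (f ⟨tent t, hmem t a b⟩).2
  obtain ⟨α, h | h⟩ := affine hiso
  · refine ⟨α / 2, fun t ht1 ht2 => ⟨?_, ?_⟩, fun t ht1 ht2 x hx => ?_⟩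
    · by_contra hcon
      -- close to the left end
      set r := min ((t + v) / 2) (t - (t + α / 2) / 2) with hr
      have r1 : t < r := lt_min (by linarith) (by linarith)
      have r2 : r < v := lt_of_le_of_lt (min_le_left _ _) (by linarith)
      have r3 : r ≤ t - (t + α / 2) / 2 := min_le_right _ _
      have := (hq0 r (by linarith) r2).1
      rw [h r (by linarith) r2] at this
      linarith
    · have := (hq0 ((t + v) / 2) (by linarith) (by linarith)).2
      rw [h _ (by linarith) (by linarith)] at this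
      linarith
    · have e1 := hq t ht1 ht2
      have e2 : x = ⟨tent t, hmem t ht1 ht2⟩ := Subtype.ext hx
      rw [e2, ← e1, h t ht1 ht2]
      have := (hq0 t ht1 ht2).2
      rw [h t ht1 ht2] at this
      rw [tent_lt (by linarith)]
      ring
  · refine ⟨1 - α / 2, fun t ht1 ht2 => ⟨?_, ?_⟩, fun t ht1 ht2 x hx => ?_⟩
    · have := (hq0 ((t + v) / 2) (by linarith) (by linarith)).2
      rw [h _ (by linarith) (by linarith)] at this
      by_contra hcon
      set r := min ((t + v) / 2) (t - (t + (1 - α / 2)) / 2) with hr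
      have r1 : t < r := lt_min (by linarith) (by linarith)
      have r2 : r < v := lt_of_le_of_lt (min_le_left _ _) (by linarith)
      have r3 : r ≤ t - (t + (1 - α / 2)) / 2 := min_le_right _ _
      have := (hq0 r (by linarith) r2).2
      rw [h r (by linarith) r2] at this
      linarith
    · have := (hq0 ((t + v) / 2) (by linarith) (by linarith)).1
      rw [h _ (by linarith) (by linarith)] at this
      linarith
    · have e1 := hq t ht1 ht2
      have e2 : x = ⟨tent t, hmem t ht1 ht2⟩ := Subtype.ext hx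
      rw [e2, ← e1, h t ht1 ht2]
      have := (hq0 t ht1 ht2).2
      rw [h t ht1 ht2] at this
      rw [tent_ge (by linarith)]
      ring

/-- There is a gap on the right of `w`. -/
theorem exists_gap (F : Finset ℝ) {w : ℝ} (hw : w < 1) :
    ∃ v, w < v ∧ v ≤ 1 ∧ ∀ c ∈ F, ¬ (w < c ∧ c < v) := by
  classical
  induction F using Finset.induction_on with
  | empty => exact ⟨1, hw, le_rfl, by simp⟩
  | insert a s _ ih =>
    obtain ⟨v, h1, h2, h3⟩ := ih
    by_cases ha : w < a
    · refine ⟨min v a, lt_min h1 ha, (min_le_left _ _).trans h2, fun c hc => ?_⟩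
      rcases Finset.mem_insert.1 hc with rfl | hc
      · exact fun h => absurd h.2 (not_lt.2 (min_le_right _ _))
      · exact fun h => h3 c hc ⟨h.1, lt_of_lt_of_le h.2 (min_le_left _ _)⟩
    · refine ⟨v, h1, h2, fun c hc => ?_⟩
      rcases Finset.mem_insert.1 hc with rfl | hc
      · exact fun h => ha h.1
      · exact h3 c hc

open Classical in
/-- The cuts in the coordinates of germs. -/
noncomputable def cts (F : Finset ℝ) : Finset ℝ :=
  insert (1 / 2) (F.image (fun c => c / 2) ∪ F.image (fun c => 1 - c / 2))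

/-- Two points which are not separated by cuts are translated by the same number. -/
theorem exists_two {f : Equiv.Perm (Set.Ico (0 : ℝ) 1)} {F : Finset ℝ}
    (hF : ∀ x y : Set.Ico (0 : ℝ) 1,
      (∀ c ∈ F, (c < (x : ℝ) ∧ c < (y : ℝ)) ∨ ((x : ℝ) < c ∧ (y : ℝ) < c)) →
      |(f x : ℝ) - f y| = |(x : ℝ) - y|) {u w : ℝ} (h0 : 0 ≤ u) (huw : u ≤ w) (h1 : w < 1)
    (hc : ∀ c ∈ cts F, c ≤ u ↔ c ≤ w) :
    ∃ β : ℝ, (0 ≤ u + β ∧ u + β < 1) ∧ (0 ≤ w + β ∧ w + β < 1) ∧ R f u (u + β) ∧
      R f w (w + β) := by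
  classical
  obtain ⟨v, hv1, hv2, hv3⟩ := exists_gap (cts F) h1
  have hgap : ∀ c ∈ cts F, ¬ (u < c ∧ c < v) := by
    intro c hcF h
    by_cases hcw : c ≤ w
    · exact absurd ((hc c hcF).2 hcw) (not_le.2 h.1)
    · exact hv3 c hcF ⟨not_le.1 hcw, h.2⟩
  obtain ⟨β, b1, b2⟩ := local_tr hF h0 (huw.trans_lt hv1) hv2 (fun c hcF t ht1 ht2 => by
    constructor
    · rintro rfl
      exact hgap _ (Finset.mem_insert_of_mem (Finset.mem_union_left _
        (Finset.mem_image_of_mem _ hcF))) ⟨ht1, ht2⟩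
    · rintro rfl
      exact hgap _ (Finset.mem_insert_of_mem (Finset.mem_union_right _
        (Finset.mem_image_of_mem _ hcF))) ⟨ht1, ht2⟩) (hgap _ (Finset.mem_insert_self _ _))
  refine ⟨β, b1 u le_rfl (huw.trans_lt hv1), b1 w huw hv1, ?_, ?_⟩
  · filter_upwards [small (sub_pos.2 (huw.trans_lt hv1))] with s hs x hx
    rw [b2 (u + s) (by linarith [hs.1]) (by linarith [hs.2]) x hx]
    congr 1
    ring
  · filter_upwards [small (sub_pos.2 hv1)] with s hs x hx
    rw [b2 (w + s) (by linarith [hs.1]) (by linarith [hs.2]) x hx]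
    congr 1
    ring

section action

variable {G : Subgroup (Equiv.Perm (Set.Ico (0 : ℝ) 1))} (hG : ∀ g ∈ G, IsPI g)

include hG

theorem exists_germ (g : G) (u : Set.Ico (0 : ℝ) 1) :
    ∃ v : Set.Ico (0 : ℝ) 1, R (g : Equiv.Perm (Set.Ico (0 : ℝ) 1)) u v := by
  obtain ⟨F, hF⟩ := hG g g.2
  obtain ⟨β, h1, _, h2, _⟩ := exists_two hF u.2.1 (le_refl (u : ℝ)) u.2.2 (fun _ _ => Iff.rfl)
  exact ⟨⟨u + β, h1⟩, h2⟩

/-- The action on the germs. -/
noncomputable def act (g : G) (u : Set.Ico (0 : ℝ) 1) : Set.Ico (0 : ℝ) 1 :=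
  (exists_germ hG g u).choose

theorem act_spec (g : G) (u : Set.Ico (0 : ℝ) 1) :
    R (g : Equiv.Perm (Set.Ico (0 : ℝ) 1)) u (act hG g u) := (exists_germ hG g u).choose_spec

theorem act_eq {g : G} {u v : Set.Ico (0 : ℝ) 1}
    (h : R (g : Equiv.Perm (Set.Ico (0 : ℝ) 1)) u v) : act hG g u = v :=
  Subtype.ext (R_unique u.2 (act_spec hG g u) h)

/-- The action on the germs. -/
noncomputable def germAct : G →* Equiv.Perm (Set.Ico (0 : ℝ) 1) :=
  MonoidHom.mk'
    (fun g => ⟨act hG g, act hG g⁻¹,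
      fun u => act_eq hG (R_inv u.2 (act_spec hG g u)),
      fun u => act_eq hG (by
        have := R_inv u.2 (act_spec hG g⁻¹ u)
        rwa [Subgroup.coe_inv, inv_inv] at this)⟩)
    (fun f g => Equiv.ext fun u => act_eq hG (R_mul (act_spec hG g u) (act_spec hG f _)))

theorem germAct_apply (g : G) (u : Set.Ico (0 : ℝ) 1) : germAct hG g u = act hG g u := rfl

/-- The action is by interval exchange transformations. -/
theorem isTr_germAct (g : G) : IsIET (germAct hG g) := by
  obtain ⟨F, hF⟩ := hG g g.2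
  refine ⟨cts F, fun x y hxy => ?_⟩
  have key : ∀ x y : Set.Ico (0 : ℝ) 1, (x : ℝ) ≤ y →
      (∀ c ∈ cts F, c ≤ (x : ℝ) ↔ c ≤ (y : ℝ)) →
      (germAct hG g x : ℝ) - x = germAct hG g y - y := by
    intro x y hle hxy
    obtain ⟨β, h1, h2, h3, h4⟩ := exists_two hF x.2.1 hle y.2.2 hxy
    rw [germAct_apply, germAct_apply, act_eq hG (v := ⟨x + β, h1⟩) h3,
      act_eq hG (v := ⟨y + β, h2⟩) h4]
    change (x : ℝ) + β - x = y + β - y
    ring
  rcases le_total (x : ℝ) y with h | h
  · exact key x y h hxy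
  · exact (key y x h fun c hc => (hxy c hc).symm).symm

/-- The kernel consists of finitely supported permutations. -/
theorem finite_of_ker (g : G) (h : germAct hG g = 1) :
    {x | (g : Equiv.Perm (Set.Ico (0 : ℝ) 1)) x ≠ x}.Finite := by
  classical
  obtain ⟨F, hF⟩ := hG g g.2
  -- the exceptional points
  have hinj : Function.Injective (fun x : Set.Ico (0 : ℝ) 1 => (x : ℝ) / 2) := fun x y h =>
    Subtype.ext (by
      change (x : ℝ) / 2 = (y : ℝ) / 2 at h
      linarith)
  have hfin : {x : Set.Ico (0 : ℝ) 1 | (x : ℝ) / 2 ∈ insert 0 (cts F)}.Finite :=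
    Set.Finite.preimage hinj.injOn (insert 0 (cts F)).finite_toSet
  refine hfin.subset fun x hx => ?_
  by_contra hxF
  apply hx
  have hxc : ∀ c ∈ insert 0 (cts F), c ≠ (x : ℝ) / 2 := fun c hc h => hxF (by
    change (x : ℝ) / 2 ∈ insert 0 (cts F)
    rw [← h]
    exact hc)
  have hx0 : (0 : ℝ) < (x : ℝ) / 2 :=
    lt_of_le_of_ne (by linarith [x.2.1]) (hxc 0 (Finset.mem_insert_self _ _))
  have hx1 := x.2.2
  set t : ℝ := (x : ℝ) / 2 with ht
  -- gaps on both sides of `t`
  obtain ⟨v', hv1, -, hv3⟩ := exists_gap ((cts F).image (fun c => -c)) (w := -t) (by linarith)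
  obtain ⟨v, hv4, hv5, hv6⟩ := exists_gap (cts F) (w := t) (by linarith)
  set u : ℝ := max (-v') 0 with hu
  have hu0 : 0 ≤ u := le_max_right _ _
  have hut : u < t := max_lt (by linarith) hx0
  have hgap : ∀ c ∈ cts F, ¬ (u < c ∧ c < v) := by
    intro c hc h
    rcases lt_trichotomy c t with h1 | h1 | h1
    · refine hv3 (-c) (Finset.mem_image_of_mem _ hc) ⟨by linarith, ?_⟩
      have := (le_max_left (-v') 0).trans_lt h.1
      linarith
    · exact hxc c (Finset.mem_insert_of_mem hc) h1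
    · exact hv6 c hc ⟨h1, h.2⟩
  obtain ⟨β, b1, b2⟩ := local_tr hF hu0 (hut.trans hv4) hv5 (fun c hcF r hr1 hr2 => by
    constructor
    · rintro rfl
      exact hgap _ (Finset.mem_insert_of_mem (Finset.mem_union_left _
        (Finset.mem_image_of_mem _ hcF))) ⟨hr1, hr2⟩
    · rintro rfl
      exact hgap _ (Finset.mem_insert_of_mem (Finset.mem_union_right _
        (Finset.mem_image_of_mem _ hcF))) ⟨hr1, hr2⟩) (hgap _ (Finset.mem_insert_self _ _))
  have hu1 : u < 1 := by linarith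
  have hR : R (g : Equiv.Perm (Set.Ico (0 : ℝ) 1)) u (u + β) := by
    filter_upwards [small (sub_pos.2 (hut.trans hv4))] with s hs y hy
    rw [b2 (u + s) (by linarith [hs.1]) (by linarith [hs.2]) y hy]
    congr 1
    ring
  have h1 : act hG g ⟨u, hu0, hu1⟩ = ⟨u, hu0, hu1⟩ := by
    rw [← germAct_apply, h]
    rfl
  have h2 := act_spec hG g ⟨u, hu0, hu1⟩
  rw [h1] at h2
  have h3 : u = u + β := R_unique ⟨hu0, hu1⟩ h2 hR
  have h4 : β = 0 := by linarith
  have htx : (x : ℝ) = tent t := by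
    rw [tent_lt (by linarith), ht]
    ring
  have h5 := b2 t hut hv4 x htx
  rw [h4, add_zero, ← htx] at h5
  exact Subtype.ext h5

end action

variable {C : ∀ (G : Type) [Group G], Prop}

/-- Groups of piecewise isometries, from groups of interval exchange transformations. -/
theorem mem_of_isPI (hC : ExtClass C)
    (hI : ∀ H : Subgroup (Equiv.Perm (Set.Ico (0 : ℝ) 1)), (∀ g ∈ H, IsIET g) → C H)
    (G : Subgroup (Equiv.Perm (Set.Ico (0 : ℝ) 1))) (hG : ∀ g ∈ G, IsPI g) : C G := by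
  refine mem_of_locallyFinite hC (germAct hG).rangeRestrict (hI _ ?_) fun T hT => ?_
  · rintro _ ⟨g, rfl⟩
    exact isTr_germAct hG g
  · refine ZT.finite_closure_of_supp G.subtype Subtype.val_injective T fun x hx => ?_
    exact finite_of_ker hG x (congrArg Subtype.val (hT x hx))

end Pool.Agent.IET
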