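import Pool.Agent.IET.Pres

/-!
# Subdivision of the floors: the homomorphisms between the levels
-/

set_option autoImplicit false

namespace Pool.Agent.IET

variable {L L' G H ι : Type} [DecidableEq L] [DecidableEq L'] [Group G] [Group H]

/-- Induction along galleries. -/
theorem gal_induction {L : Type} {V W : List L} (h : V.Perm W) (q : List L → Prop) (h0 : q V)
    (hs : ∀ A B : List L, ∀ i j, V.Perm (A ++ i :: j :: B) → q (A ++ i :: j :: B) →
      q (A ++ j :: i :: B)) : q W := by
  have key : ∀ {V' W' : List L}, V'.Perm W' → ∀ A : List L, V.Perm (A ++ V') → q (A ++ V') →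
      q (A ++ W') := by
    intro V' W' h'
    induction h' with
    | nil => exact fun A _ hq => hq
    | @cons a l₁ l₂ h₁ ih =>
      intro A hA hq
      have := ih (A ++ [a]) (by simpa using hA) (by simpa using hq)
      simpa using this
    | swap i j l =>
      intro A hA hq
      exact hs A l j i hA hq
    | @trans l₁ l₂ l₃ h₁ h₂ ih₁ ih₂ =>
      intro A hA hq
      exact ih₂ A (hA.trans (h₁.append_left A)) (ih₁ A hA hq)
  simpa using key h [] (by simp) (by simpa using h0)

/-- `X` only depends on `x i j` for `i`, `j` in the list. -/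
theorem X_congr {x y : L → L → G} : ∀ {V W : List L}, V.Nodup → V.Perm W →
    (∀ i ∈ V, ∀ j ∈ V, i ≠ j → x i j = y i j) → X x V W = X y V W
  | [], _, _, _, _ => rfl
  | a :: V, W, hV, h, hxy => by
    rw [X, X]
    have ha : a ∈ W := h.subset (by simp)
    have h' : V.Perm (W.erase a) := List.cons_perm_iff_perm_erase.1 h |>.2
    rw [X_congr (List.nodup_cons.1 hV).2 h' fun i hi j hj => hxy i (by simp [hi]) j (by simp [hj])]
    congr 1
    rw [pass, pass]
    congr 1
    refine List.map_congr_left fun c hc => hxy a (by simp) c ?_ ?_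
    · exact h.symm.subset ((List.takeWhile_prefix _).subset hc)
    · have := List.mem_takeWhile_imp hc
      simp only [ne_eq, decide_not, Bool.not_eq_eq_eq_not, Bool.not_true,
        decide_eq_false_iff_not] at this
      exact fun h => this h.symm

/-- A block map: each label of `N` is replaced by a list of labels of `N'`. -/
structure Blk {L L' : Type} (N : Set L) (N' : Set L') (t : L → ι) (t' : L' → ι)
    (σ : L → List L') : Prop where
  mem : ∀ n ∈ N, ∀ m ∈ σ n, m ∈ N'
  nodup : ∀ n ∈ N, (σ n).Nodup
  disj : ∀ n ∈ N, ∀ m ∈ N, n ≠ m → List.Disjoint (σ n) (σ m)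
  type : ∀ n ∈ N, ∀ m ∈ N, t n = t m → (σ n).map t' = (σ m).map t'

variable {N : Set L} {N' : Set L'} {t : L → ι} {t' : L' → ι} {σ : L → List L'}

omit [DecidableEq L] [DecidableEq L'] in
theorem Blk.flat_nodup (h : Blk N N' t t' σ) {V : List L} (hV : V.Nodup) (hN : ∀ a ∈ V, a ∈ N) :
    (V.flatMap σ).Nodup := by
  refine List.nodup_flatMap.2 ⟨fun n hn => h.nodup n (hN n hn), ?_⟩
  exact hV.imp_of_mem fun {a b} ha hb hab => h.disj a (hN a ha) b (hN b hb) hab

omit [DecidableEq L] [DecidableEq L'] in
theorem Blk.flat_mem (h : Blk N N' t t' σ) {V : List L} (hN : ∀ a ∈ V, a ∈ N) :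
    ∀ a ∈ V.flatMap σ, a ∈ N' := by
  intro a ha
  obtain ⟨n, hn, ha⟩ := List.mem_flatMap.1 ha
  exact h.mem n (hN n hn) a ha

/-- The image of a generator: the blocks are exchanged. -/
def bx (x' : L' → L' → G) (σ : L → List L') (i j : L) : G := X x' (σ i ++ σ j) (σ j ++ σ i)

variable {x' : L' → L' → G}

omit [DecidableEq L] in
/-- Changes of disjoint lists commute. -/
theorem X_comm (hx : YB N' x') {V W V' W' : List L'} (h : (V ++ V').Nodup)
    (hN : ∀ a ∈ V ++ V', a ∈ N') (hV : V.Perm W) (hV' : V'.Perm W') :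
    X x' V W * X x' V' W' = X x' V' W' * X x' V W := by
  have a1 : X x' (V ++ V') (W ++ V') = X x' V W := by
    simpa using X_ctx (A := []) (B := V') hx (by simpa using h) (by simpa using hN) hV
  have a2 : X x' (W ++ V') (W ++ W') = X x' V' W' := by
    have := (hV.append_right V').nodup_iff.1 h
    have h2 : ∀ a ∈ W ++ V', a ∈ N' := fun a ha => hN a ((hV.append_right V').symm.subset ha)
    simpa using X_ctx (A := W) (B := []) hx (by simpa using this) (by simpa using h2) hV'
  have a3 : X x' (V ++ V') (V ++ W') = X x' V' W' := by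
    simpa using X_ctx (A := V) (B := []) hx (by simpa using h) (by simpa using hN) hV'
  have a4 : X x' (V ++ W') (W ++ W') = X x' V W := by
    have := (hV'.append_left V).nodup_iff.1 h
    have h2 : ∀ a ∈ V ++ W', a ∈ N' := fun a ha => hN a ((hV'.append_left V).symm.subset ha)
    simpa using X_ctx (A := []) (B := W') hx (by simpa using this) (by simpa using h2) hV
  rw [← a1, ← a2, X_mul hx h hN (hV.append_right V') (hV'.append_left W), a1, a2, ← a3, ← a4,
    X_mul hx h hN (hV'.append_left V) (hV.append_right W')]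

omit [DecidableEq L] in
/-- The Yang-Baxter relation for blocks. -/
theorem X_yb (hx : YB N' x') {a b c : List L'} (h : (a ++ b ++ c).Nodup)
    (hN : ∀ e ∈ a ++ b ++ c, e ∈ N') :
    X x' (a ++ b) (b ++ a) * X x' (a ++ c) (c ++ a) * X x' (b ++ c) (c ++ b) =
      X x' (b ++ c) (c ++ b) * X x' (a ++ c) (c ++ a) * X x' (a ++ b) (b ++ a) := by
  have key : ∀ {A V W B : List L'}, (a ++ b ++ c).Perm (A ++ V ++ B) → V.Perm W →
      X x' (A ++ V ++ B) (A ++ W ++ B) = X x' V W := by
    intro A V W B h1 h2
    exact X_ctx hx (h1.nodup_iff.1 h) (fun e he => hN e (h1.symm.subset he)) h2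
  have mul : ∀ {U V W : List L'}, (a ++ b ++ c).Perm U → U.Perm V → V.Perm W →
      X x' U V * X x' V W = X x' U W := by
    intro U V W h1 h2 h3
    exact X_mul hx (h1.nodup_iff.1 h) (fun e he => hN e (h1.symm.subset he)) h2 h3
  have p1 : (a ++ b ++ c).Perm (b ++ a ++ c) := List.perm_append_comm.append_right c
  have p2 : (b ++ a ++ c).Perm (b ++ c ++ a) := by
    simpa [List.append_assoc] using (List.perm_append_comm (l₁ := a) (l₂ := c)).append_left b
  have p3 : (b ++ c ++ a).Perm (c ++ b ++ a) := List.perm_append_comm.append_right a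
  have q1 : (a ++ b ++ c).Perm (a ++ c ++ b) := by
    simpa [List.append_assoc] using (List.perm_append_comm (l₁ := b) (l₂ := c)).append_left a
  have q2 : (a ++ c ++ b).Perm (c ++ a ++ b) := List.perm_append_comm.append_right b
  have q3 : (c ++ a ++ b).Perm (c ++ b ++ a) := by
    simpa [List.append_assoc] using (List.perm_append_comm (l₁ := a) (l₂ := b)).append_left c
  have e1 : X x' (a ++ b ++ c) (b ++ a ++ c) = X x' (a ++ b) (b ++ a) := by
    simpa using key (A := []) (V := a ++ b) (W := b ++ a) (B := c) (by simp)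
      List.perm_append_comm
  have e2 : X x' (b ++ a ++ c) (b ++ c ++ a) = X x' (a ++ c) (c ++ a) := by
    simpa [List.append_assoc] using key (A := b) (V := a ++ c) (W := c ++ a) (B := [])
      (by simpa [List.append_assoc] using p1) List.perm_append_comm
  have e3 : X x' (b ++ c ++ a) (c ++ b ++ a) = X x' (b ++ c) (c ++ b) := by
    simpa using key (A := []) (V := b ++ c) (W := c ++ b) (B := a)
      (by simpa using p1.trans p2) List.perm_append_comm
  have f1 : X x' (a ++ b ++ c) (a ++ c ++ b) = X x' (b ++ c) (c ++ b) := by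
    simpa [List.append_assoc] using key (A := a) (V := b ++ c) (W := c ++ b) (B := [])
      (by simp) List.perm_append_comm
  have f2 : X x' (a ++ c ++ b) (c ++ a ++ b) = X x' (a ++ c) (c ++ a) := by
    simpa using key (A := []) (V := a ++ c) (W := c ++ a) (B := b)
      (by simpa using q1) List.perm_append_comm
  have f3 : X x' (c ++ a ++ b) (c ++ b ++ a) = X x' (a ++ b) (b ++ a) := by
    simpa [List.append_assoc] using key (A := c) (V := a ++ b) (W := b ++ a) (B := [])
      (by simpa [List.append_assoc] using q1.trans q2) List.perm_append_comm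
  calc _ = X x' (a ++ b ++ c) (c ++ b ++ a) := by
        rw [← e1, ← e2, ← e3, mul .rfl p1 p2, mul .rfl (p1.trans p2) p3]
    _ = _ := by
        rw [← f1, ← f2, ← f3, mul .rfl q1 q2, mul .rfl (q1.trans q2) q3]

theorem bx_tyb (h : Blk N N' t t' σ) (hx : TYB N' t' x') : TYB N t (bx x' σ) := by
  have hyb : YB N' x' := hx.toYB
  have hnd : ∀ {V : List L}, V.Nodup → (∀ a ∈ V, a ∈ N) → (V.flatMap σ).Nodup :=
    fun hV hN => h.flat_nodup hV hN
  have hmem : ∀ {V : List L}, (∀ a ∈ V, a ∈ N) → ∀ a ∈ V.flatMap σ, a ∈ N' :=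
    fun hN => h.flat_mem hN
  refine ⟨⟨?_, ?_, ?_⟩, ?_, ?_⟩
  · intro i hi j hj hij
    have h1 := hnd (V := [i, j]) (by simpa using hij) (by simp [hi, hj])
    have h2 := hmem (V := [i, j]) (by simp [hi, hj])
    simp only [List.flatMap_cons, List.flatMap_nil, List.append_nil] at h1 h2
    rw [bx, bx, X_mul hyb h1 h2 List.perm_append_comm List.perm_append_comm, X_self _ h1]
  · intro i hi j hj k hk l hl hij hkl hik hil hjk hjl
    have h1 := hnd (V := [i, j, k, l]) (by simp [hij, hkl, hik, hil, hjk, hjl])
      (by simp [hi, hj, hk, hl])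
    have h2 := hmem (V := [i, j, k, l]) (by simp [hi, hj, hk, hl])
    simp only [List.flatMap_cons, List.flatMap_nil, List.append_nil, ← List.append_assoc] at h1 h2
    exact X_comm hyb (V := σ i ++ σ j) (V' := σ k ++ σ l) (by simpa [List.append_assoc] using h1)
      (by simpa [List.append_assoc] using h2) List.perm_append_comm List.perm_append_comm
  · intro i hi j hj k hk hij hik hjk
    have h1 := hnd (V := [i, j, k]) (by simp [hij, hik, hjk]) (by simp [hi, hj, hk])
    have h2 := hmem (V := [i, j, k]) (by simp [hi, hj, hk])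
    simp only [List.flatMap_cons, List.flatMap_nil, List.append_nil, ← List.append_assoc] at h1 h2
    exact X_yb hyb h1 h2
  · intro i hi j hj hij ht
    have h1 := hnd (V := [i, j]) (by simpa using hij) (by simp [hi, hj])
    have h2 := hmem (V := [i, j]) (by simp [hi, hj])
    simp only [List.flatMap_cons, List.flatMap_nil, List.append_nil] at h1 h2
    exact X_block_sym hx h1 h2 (h.type i hi j hj ht)
  · intro i hi j hj k hk hij hik hjk ht
    have h1 := hnd (V := [i, j, k]) (by simp [hij, hik, hjk]) (by simp [hi, hj, hk])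
    have h2 := hmem (V := [i, j, k]) (by simp [hi, hj, hk])
    simp only [List.flatMap_cons, List.flatMap_nil, List.append_nil, ← List.append_assoc] at h1 h2
    exact X_block_conj hx h1 h2 (h.type i hi j hj ht)

/-- The exchange of two orders goes to the exchange of the subdivided orders. -/
theorem X_bx (h : Blk N N' t t' σ) (hx : YB N' x') (hy : YB N (bx x' σ)) {V W : List L}
    (hV : V.Nodup) (hN : ∀ a ∈ V, a ∈ N) (hVW : V.Perm W) :
    X (bx x' σ) V W = X x' (V.flatMap σ) (W.flatMap σ) := by
  have h1 := h.flat_nodup hV hN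
  have h2 := h.flat_mem hN
  refine gal_induction hVW (fun W => X (bx x' σ) V W = X x' (V.flatMap σ) (W.flatMap σ)) ?_ ?_
  · rw [X_self _ hV, X_self _ h1]
  · intro A B i j hp ih
    have h3 : (V.flatMap σ).Perm ((A ++ i :: j :: B).flatMap σ) := hp.flatMap_right σ
    have h4 : ((A ++ i :: j :: B).flatMap σ) = A.flatMap σ ++ (σ i ++ σ j) ++ B.flatMap σ := by
      simp [List.append_assoc]
    have h5 : ((A ++ j :: i :: B).flatMap σ) = A.flatMap σ ++ (σ j ++ σ i) ++ B.flatMap σ := by
      simp [List.append_assoc]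
    have h6 : (A.flatMap σ ++ (σ i ++ σ j) ++ B.flatMap σ).Perm
        (A.flatMap σ ++ (σ j ++ σ i) ++ B.flatMap σ) :=
      ((List.perm_append_comm (l₁ := σ i) (l₂ := σ j)).append_left _).append_right _
    rw [X_step hy hV hN hp, ih, h4, h5, ← X_mul hx h1 h2 (by rw [← h4]; exact h3) h6]
    congr 1
    refine (X_ctx hx ?_ ?_ List.perm_append_comm).symm
    · rw [← h4]
      exact h3.nodup_iff.1 h1
    · rw [← h4]
      exact fun a ha => h2 a (h3.symm.subset ha)

end Pool.Agent.IET
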