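import Pool.Agent.IET.Lev1

/-!
# Products of good elements
-/

set_option autoImplicit false

namespace Pool.Agent.IET

variable {L L' G ι : Type} [DecidableEq L] [DecidableEq L'] [Group G]
  {N : Set L} {N' : Set L'} {t : L → ι} {t' : L' → ι} {σ : L → List L'} {x' : L' → L' → G}

omit [DecidableEq L] in
/-- Rearrangement inside the blocks. -/
theorem X_flat (h : Blk N N' t t' σ) (hx : YB N' x') {τ : L → List L'} :
    ∀ {V : List L}, V.Nodup → (∀ a ∈ V, a ∈ N) → (∀ n ∈ V, (σ n).Perm (τ n)) →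
      X x' (V.flatMap σ) (V.flatMap τ) = (V.map fun n => X x' (σ n) (τ n)).prod
  | [], _, _, _ => by simp [X]
  | n :: V, hV, hN, hτ => by
    have hV' := (List.nodup_cons.1 hV).2
    have hN' : ∀ a ∈ V, a ∈ N := fun a ha => hN a (by simp [ha])
    have hτ' : ∀ a ∈ V, (σ a).Perm (τ a) := fun a ha => hτ a (by simp [ha])
    have h1 := h.flat_nodup hV hN
    have h2 := h.flat_mem hN
    have p1 : (σ n ++ V.flatMap σ).Perm (τ n ++ V.flatMap σ) :=
      (hτ n (by simp)).append_right _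
    have p3 : (V.flatMap σ).Perm (V.flatMap τ) := List.Perm.flatMap_left V hτ'
    have p2 : (τ n ++ V.flatMap σ).Perm (τ n ++ V.flatMap τ) := p3.append_left _
    rw [List.flatMap_cons] at h1 h2
    have e1 : X x' (σ n ++ V.flatMap σ) (τ n ++ V.flatMap σ) = X x' (σ n) (τ n) := by
      simpa using X_ctx (A := []) (B := V.flatMap σ) hx (by simpa using h1) (by simpa using h2)
        (hτ n (by simp))
    have e2 : X x' (τ n ++ V.flatMap σ) (τ n ++ V.flatMap τ) =
        X x' (V.flatMap σ) (V.flatMap τ) := by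
      have g1 := p1.nodup_iff.1 h1
      have g2 : ∀ a ∈ τ n ++ V.flatMap σ, a ∈ N' := fun a ha => h2 a (p1.symm.subset ha)
      simpa using X_ctx (A := τ n) (B := []) hx (by simpa using g1) (by simpa using g2) p3
    rw [List.flatMap_cons, List.flatMap_cons, List.map_cons, List.prod_cons,
      ← X_mul hx h1 h2 p1 p2, e1, e2, X_flat h hx hV' hN' hτ']

omit [DecidableEq L] in
theorem X_flat_perm (h : Blk N N' t t' σ) (hx : YB N' x') {τ : L → List L'} {V W : List L}
    (hV : V.Nodup) (hN : ∀ a ∈ V, a ∈ N) (hτ : ∀ n ∈ V, (σ n).Perm (τ n)) (hVW : V.Perm W) :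
    X x' (V.flatMap σ) (V.flatMap τ) = X x' (W.flatMap σ) (W.flatMap τ) := by
  rw [X_flat h hx hV hN hτ, X_flat h hx (hVW.nodup_iff.1 hV)
    (fun a ha => hN a (hVW.symm.subset ha)) (fun a ha => hτ a (hVW.symm.subset ha))]
  refine (hVW.map _).prod_eq' ?_
  rw [List.pairwise_map]
  refine hV.imp_of_mem fun {a b} ha hb hab => ?_
  refine X_comm hx ?_ ?_ (hτ a ha) (hτ b hb)
  · rw [List.nodup_append']
    exact ⟨h.nodup a (hN a ha), h.nodup b (hN b hb), h.disj a (hN a ha) b (hN b hb) hab⟩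
  · intro e he
    rcases List.mem_append.1 he with he | he
    exacts [h.mem a (hN a ha) e he, h.mem b (hN b hb) e he]

/-- Good elements. -/
def gd (x : L → L → G) (U W' W : List L) : G := X x U W' * (X x U W)⁻¹

omit [DecidableEq L] in
/-- Good elements do not change under rearrangements inside the blocks. -/
theorem gd_flat (h : Blk N N' t t' σ) (hx : YB N' x') {τ : L → List L'} {U W' W : List L}
    (hU : U.Nodup) (hN : ∀ a ∈ U, a ∈ N) (hτ : ∀ n ∈ U, (σ n).Perm (τ n)) (hW' : U.Perm W')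
    (hW : U.Perm W) :
    gd x' (U.flatMap σ) (W'.flatMap σ) (W.flatMap σ) =
      gd x' (U.flatMap σ) (W'.flatMap τ) (W.flatMap τ) := by
  have h1 := h.flat_nodup hU hN
  have h2 := h.flat_mem hN
  have key : ∀ {V : List L}, U.Perm V → X x' (U.flatMap σ) (V.flatMap τ) =
      X x' (U.flatMap σ) (V.flatMap σ) * X x' (U.flatMap σ) (U.flatMap τ) := by
    intro V hV
    have p1 : (U.flatMap σ).Perm (V.flatMap σ) := hV.flatMap_right σ
    have p2 : (V.flatMap σ).Perm (V.flatMap τ) :=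
      List.Perm.flatMap_left V fun a ha => hτ a (hV.symm.subset ha)
    rw [X_flat_perm h hx hU hN hτ hV, X_mul hx h1 h2 p1 p2]
  rw [gd, gd, key hW', key hW]
  group

omit [DecidableEq L] in
/-- The product of two good elements is good at a later level. -/
theorem gd_mul (h : Blk N N' t t' σ) (hx : TYB N' t' x') {τ τ' : L → List L'}
    {U W' W V' V : List L} (hU : U.Nodup) (hN : ∀ a ∈ U, a ∈ N)
    (hτ : ∀ n ∈ U, (σ n).Perm (τ n)) (hτ' : ∀ n ∈ U, (σ n).Perm (τ' n))
    (hW' : U.Perm W') (hW : U.Perm W) (hV' : U.Perm V') (hV : U.Perm V)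
    (ht : (W.flatMap τ).map t' = (V'.flatMap τ').map t') :
    ∃ Z' Z : List L', (U.flatMap σ).Perm Z' ∧ (U.flatMap σ).Perm Z ∧
      gd x' (U.flatMap σ) (W'.flatMap σ) (W.flatMap σ) *
        gd x' (U.flatMap σ) (V'.flatMap σ) (V.flatMap σ) = gd x' (U.flatMap σ) Z' Z := by
  have hyb : YB N' x' := hx.toYB
  have h1 := h.flat_nodup hU hN
  have h2 := h.flat_mem hN
  have per : ∀ {V : List L} {τ : L → List L'}, (∀ n ∈ U, (σ n).Perm (τ n)) → U.Perm V →
      (U.flatMap σ).Perm (V.flatMap τ) := by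
    intro V τ hτ hV
    exact (hV.flatMap_right σ).trans
      (List.Perm.flatMap_left V fun a ha => hτ a (hV.symm.subset ha))
  have pW' := per hτ hW'
  have pW := per hτ hW
  have pV' := per hτ' hV'
  have pV := per hτ' hV
  have g1 := pW'.nodup_iff.1 h1
  have g2 : ∀ a ∈ W'.flatMap τ, a ∈ N' := fun a ha => h2 a (pW'.symm.subset ha)
  obtain ⟨Z', hZ', e⟩ := X_relabel hx g1 g2 (pW.nodup_iff.1 h1) (pW.symm.trans pV')
    (fun a ha => (pW.symm.trans pW').subset ha) ht
  refine ⟨Z', V.flatMap τ', pW'.trans hZ', pV, ?_⟩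
  rw [gd_flat h hyb hU hN hτ hW' hW, gd_flat h hyb hU hN hτ' hV' hV, gd, gd, gd,
    ← X_mul hyb h1 h2 pW' hZ', e, ← X_mul hyb (pW.nodup_iff.1 h1)
      (fun a ha => h2 a (pW.symm.subset ha)) pW.symm pV', ← X_inv hyb h1 h2 pW]
  group

end Pool.Agent.IET
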