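import Pool.Agent.IET.Lev3
import Pool.Agent.IET.Bas

/-!
# The levels
-/

set_option autoImplicit false

namespace Pool.Agent.IET

/-- A system of bases. -/
structure Sys (ι : Type) [Fintype ι] (Γ : AddSubgroup ℝ) where
  b : ℕ → ι → ℝ
  s : ℕ → ι → List ι
  T : List ι
  pos : ∀ k a, 0 < b k a
  indep : ∀ k, Indep (b k)
  sum : ∀ k a, ((s k a).map (b (k + 1))).sum = b k a
  mem : ∀ k a, b k a ∈ Γ
  cof : ∀ x ∈ Γ, 0 < x → ∃ k, ∃ w : List ι, (w.map (b k)).sum = x
  one : (T.map (b 0)).sum = 1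

theorem sum_flat {ι : Type} {b b' : ι → ℝ} {s : ι → List ι}
    (hs : ∀ a, ((s a).map b').sum = b a) (w : List ι) :
    ((w.flatMap s).map b').sum = (w.map b).sum := by
  induction w with
  | nil => rfl
  | cons a w ih => rw [List.flatMap_cons, List.map_append, List.sum_append, ih, hs]; rfl

/-- A homomorphism of the presented group on `X`. -/
theorem lift_X {L G ι : Type} [DecidableEq L] [Group G] {N : Set L} {t : L → ι} {x : L → L → G}
    (hx : TYB N t x) {V W : List L} (hV : V.Nodup) (hN : ∀ a ∈ V, a ∈ N) (h : V.Perm W) :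
    lift x hx (X (xg N t) V W) = X x V W := by
  rw [map_X]
  exact X_congr hV h fun i hi j hj hij => lift_xg hx (hN i hi) (hN j hj) hij

namespace Sys

variable {ι : Type} [Fintype ι] [DecidableEq ι] {Γ : AddSubgroup ℝ} (S : Sys ι Γ)

/-- The words of the letters of level `k` at level `l`. -/
def ss (k : ℕ) : ℕ → ι → List ι
  | 0 => fun a => [a]
  | l + 1 => fun a => if k ≤ l then (ss k l a).flatMap (S.s l) else [a]

omit [DecidableEq ι] in
theorem ss_self (k : ℕ) (a : ι) : S.ss k k a = [a] := by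
  cases k with
  | zero => rfl
  | succ k =>
    change (if k + 1 ≤ k then (S.ss (k + 1) k a).flatMap (S.s k) else [a]) = [a]
    rw [if_neg (by omega)]

omit [DecidableEq ι] in
theorem ss_succ {k l : ℕ} (h : k ≤ l) (a : ι) :
    S.ss k (l + 1) a = (S.ss k l a).flatMap (S.s l) := by
  change (if k ≤ l then (S.ss k l a).flatMap (S.s l) else [a]) = _
  rw [if_pos h]

omit [DecidableEq ι] in
theorem ss_sum {k l : ℕ} (h : k ≤ l) : ∀ a, ((S.ss k l a).map (S.b l)).sum = S.b k a := by
  induction l, h using Nat.le_induction with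
  | base => intro a; rw [ss_self]; simp
  | succ l h ih => intro a; rw [ss_succ S h, sum_flat (S.sum l), ih]

omit [DecidableEq ι] in
theorem ss_trans {k l m : ℕ} (h : k ≤ l) (h' : l ≤ m) (a : ι) :
    (S.ss k l a).flatMap (S.ss l m) = S.ss k m a := by
  induction m, h' using Nat.le_induction with
  | base =>
    have : S.ss l l = fun a => [a] := funext fun a => S.ss_self l a
    rw [this, List.flatMap_singleton']
  | succ m h' ih =>
    rw [ss_succ S (h.trans h'), ← ih, List.flatMap_assoc]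
    congr 1
    funext c
    exact ss_succ S h' c

/-- The word of level `l`. -/
def TT (l : ℕ) : List ι := S.T.flatMap (S.ss 0 l)

omit [DecidableEq ι] in
theorem TT_trans {k l : ℕ} (h : k ≤ l) : (S.TT k).flatMap (S.ss k l) = S.TT l := by
  rw [TT, TT, List.flatMap_assoc]
  congr 1
  funext c
  exact S.ss_trans (Nat.zero_le k) h c

omit [DecidableEq ι] in
theorem TT_sum (l : ℕ) : ((S.TT l).map (S.b l)).sum = 1 := by
  rw [TT, sum_flat (S.ss_sum (Nat.zero_le l)), S.one]

/-- The floors of level `l`. -/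
def bs (l : ℕ) : List (ℝ × ι) := cuts (S.b l) 0 (S.TT l)

/-- The subdivision of a floor of level `k` at level `l`. -/
def sL (k l : ℕ) : ℝ × ι → List (ℝ × ι) := sbd (S.b l) (S.ss k l)

omit [DecidableEq ι] in
theorem bs_flat {k l : ℕ} (h : k ≤ l) : (S.bs k).flatMap (S.sL k l) = S.bs l := by
  rw [bs, sL, cuts_flatMap (S.ss_sum h), TT_trans S h, bs]

omit [DecidableEq ι] in
theorem sL_flat {k l m : ℕ} (h : k ≤ l) (h' : l ≤ m) (n : ℝ × ι) :
    (S.sL k l n).flatMap (S.sL l m) = S.sL k m n := by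
  rw [sL, sL, sbd_sbd (S.ss_sum h'), sL]
  congr 1
  funext a
  exact S.ss_trans h h' a

/-- The set of the floors of level `l`. -/
def NN (l : ℕ) : Set (ℝ × ι) := {n | n ∈ S.bs l}

theorem bs_nodup (l : ℕ) : (S.bs l).Nodup := cuts_nodup (S.pos l) _ _

theorem dj (l : ℕ) : Dj (S.b l) (S.NN l) := cuts_dj (S.pos l) _ _

omit [DecidableEq ι] in
theorem sL_mem {k l : ℕ} (h : k ≤ l) : ∀ n ∈ S.NN k, ∀ m ∈ S.sL k l n, m ∈ S.NN l := by
  intro n hn m hm
  change m ∈ S.bs l
  rw [← S.bs_flat h]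
  exact List.mem_flatMap.2 ⟨n, hn, hm⟩

theorem blk {k l : ℕ} (h : k ≤ l) : Blk (S.NN k) (S.NN l) Prod.snd Prod.snd (S.sL k l) :=
  blk_sbd (S.pos l) (S.dj k) (S.ss_sum h) (S.sL_mem h)

/-- The group of level `l`. -/
abbrev Gr (l : ℕ) : Type := P (S.NN l) Prod.snd

/-- The generators of level `l`. -/
abbrev x (l : ℕ) : ℝ × ι → ℝ × ι → S.Gr l := xg (S.NN l) Prod.snd

theorem tyb (l : ℕ) : TYB (S.NN l) Prod.snd (S.x l) := xg_tyb _ _

/-- From one level to a later one. -/
noncomputable def f (k l : ℕ) (h : k ≤ l) : S.Gr k →* S.Gr l :=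
  lift (bx (S.x l) (S.sL k l)) (bx_tyb (S.blk h) (S.tyb l))

/-- The action on the real numbers. -/
noncomputable def pi (l : ℕ) : S.Gr l →* Equiv.Perm ℝ :=
  lift (ex (S.b l)) (ex_tyb (S.pos l) (S.dj l))

theorem f_X {k l : ℕ} (h : k ≤ l) {V W : List (ℝ × ι)} (hV : V.Nodup) (hN : ∀ a ∈ V, a ∈ S.NN k)
    (hVW : V.Perm W) :
    S.f k l h (X (S.x k) V W) = X (S.x l) (V.flatMap (S.sL k l)) (W.flatMap (S.sL k l)) := by
  have hB := bx_tyb (S.blk h) (S.tyb l)
  rw [f, lift_X hB hV hN hVW, X_bx (S.blk h) (S.tyb l).toYB hB.toYB hV hN hVW]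

theorem pi_X (l : ℕ) {V W : List (ℝ × ι)} (hV : V.Nodup) (hN : ∀ a ∈ V, a ∈ S.NN l)
    (hVW : V.Perm W) : S.pi l (X (S.x l) V W) = X (ex (S.b l)) V W := by
  rw [pi, lift_X _ hV hN hVW]

theorem f_f (k l m : ℕ) (h : k ≤ l) (h' : l ≤ m) (g : S.Gr k) :
    S.f l m h' (S.f k l h g) = S.f k m (h.trans h') g := by
  have : (S.f l m h').comp (S.f k l h) = S.f k m (h.trans h') := by
    refine hom_ext fun i hi j hj hij => ?_
    have hB := S.blk h
    have hV : [i, j].Nodup := by simpa using hij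
    have hVN : ∀ n ∈ [i, j], n ∈ S.NN k := by simp [hi, hj]
    have h1 := hB.flat_nodup hV hVN
    have h2 := hB.flat_mem hVN
    simp only [List.flatMap_cons, List.flatMap_nil, List.append_nil] at h1 h2
    rw [MonoidHom.comp_apply, f, f, f, lift_xg _ hi hj hij, lift_xg _ hi hj hij]
    have := S.f_X h' h1 h2 List.perm_append_comm
    rw [f] at this
    rw [bx, this, bx, List.flatMap_append, List.flatMap_append, S.sL_flat h h', S.sL_flat h h']
  exact DFunLike.congr_fun this g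

theorem pi_f (k l : ℕ) (h : k ≤ l) (g : S.Gr k) : S.pi l (S.f k l h g) = S.pi k g := by
  have : (S.pi l).comp (S.f k l h) = S.pi k := by
    refine hom_ext fun i hi j hj hij => ?_
    have hB := S.blk h
    have hV : [i, j].Nodup := by simpa using hij
    have hVN : ∀ n ∈ [i, j], n ∈ S.NN k := by simp [hi, hj]
    have h1 := hB.flat_nodup hV hVN
    have h2 := hB.flat_mem hVN
    simp only [List.flatMap_cons, List.flatMap_nil, List.append_nil] at h1 h2
    rw [MonoidHom.comp_apply, f, lift_xg _ hi hj hij, bx, S.pi_X l h1 h2 List.perm_append_comm,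
      pi, lift_xg _ hi hj hij]
    exact ex_eq_bx (S.pos k) (S.pos l) (S.dj k) (S.dj l) (S.ss_sum h) (S.sL_mem h) hi hj hij
  exact DFunLike.congr_fun this g

end Sys

end Pool.Agent.IET
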