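import Pool.Agent.IET.Sem
import Pool.Agent.IET.Fin

/-!
# Restricted rotations are exchanges of blocks of floors
-/

set_option autoImplicit false

namespace Pool.Agent.IET

variable {ι : Type} [DecidableEq ι] {b : ι → ℝ}

omit [DecidableEq ι] in
/-- The total length. -/
theorem sum_cuts (x : ℝ) (T : List ι) :
    ((cuts b x T).map (fun n => b n.2)).sum = (T.map b).sum := by
  induction T generalizing x with
  | nil => rfl
  | cons a T ih =>
    change b a + ((cuts b (x + b a) T).map (fun n => b n.2)).sum = b a + (T.map b).sum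
    rw [ih]

omit [DecidableEq ι] in
theorem sum_len_nonneg (hb : ∀ a, 0 < b a) (V : List (ℝ × ι)) :
    0 ≤ (V.map (fun n => b n.2)).sum := by
  refine List.sum_nonneg ?_
  intro x hx
  obtain ⟨n, -, rfl⟩ := List.mem_map.1 hx
  exact (hb _).le

/-- The values of a rearrangement. -/
theorem X_ex_eq (hb : ∀ a, 0 < b a) (T : List ι) {W : List (ℝ × ι)}
    (h : (cuts b 0 T).Perm W) {v : ℝ} (hv : InFl b (cuts b 0 T) v) :
    X (ex b) (cuts b 0 T) W v = pos b W v := by
  have h1 := pos_X_ex hb (cuts_dj hb 0 T) (cuts_nodup hb 0 T) (fun n hn => hn) h hv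
  have h2 := X_ex_inFl hb (cuts_dj hb 0 T) (cuts_nodup hb 0 T) (fun n hn => hn) h hv
  rw [pos_cuts hb 0 T h2, sub_zero] at h1
  exact h1

/-- **Restricted rotations.** -/
theorem X_rot (hb : ∀ a, 0 < b a) (T : List ι) {A B C D : List (ℝ × ι)}
    (h : (cuts b 0 T).Perm (A ++ B ++ C ++ D)) :
    X (ex b) (cuts b 0 T) (A ++ C ++ B ++ D) *
        (X (ex b) (cuts b 0 T) (A ++ B ++ C ++ D))⁻¹ =
      rr (A.map (fun n => b n.2)).sum
        ((A.map (fun n => b n.2)).sum + (B.map (fun n => b n.2)).sum)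
        ((A.map (fun n => b n.2)).sum + (B.map (fun n => b n.2)).sum +
          (C.map (fun n => b n.2)).sum) := by
  have hp : (A ++ B ++ C ++ D).Perm (A ++ C ++ B ++ D) := by
    refine List.Perm.append_right D ?_
    rw [List.append_assoc, List.append_assoc]
    exact List.Perm.append_left A List.perm_append_comm
  have h' : (cuts b 0 T).Perm (A ++ C ++ B ++ D) := h.trans hp
  have hN := cuts_dj hb 0 T
  have hW : (A ++ B ++ C ++ D).Nodup := h.nodup_iff.1 (cuts_nodup hb 0 T)
  have hW' : (A ++ C ++ B ++ D).Nodup := h'.nodup_iff.1 (cuts_nodup hb 0 T)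
  have hm : ∀ n ∈ A ++ B ++ C ++ D, n ∈ {n | n ∈ cuts b 0 T} := fun n hn => h.mem_iff.2 hn
  have hm' : ∀ n ∈ A ++ C ++ B ++ D, n ∈ {n | n ∈ cuts b 0 T} := fun n hn => h'.mem_iff.2 hn
  have hA0 := sum_len_nonneg hb A
  have hB0 := sum_len_nonneg hb B
  have hC0 := sum_len_nonneg hb C
  have hD0 := sum_len_nonneg hb D
  have hr : (A.map (fun n => b n.2)).sum ≤
      (A.map (fun n => b n.2)).sum + (B.map (fun n => b n.2)).sum ∧
      (A.map (fun n => b n.2)).sum + (B.map (fun n => b n.2)).sum ≤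
      (A.map (fun n => b n.2)).sum + (B.map (fun n => b n.2)).sum +
        (C.map (fun n => b n.2)).sum := ⟨by linarith, by linarith⟩
  have hS : (T.map b).sum = (A.map (fun n => b n.2)).sum + (B.map (fun n => b n.2)).sum +
      (C.map (fun n => b n.2)).sum + (D.map (fun n => b n.2)).sum := by
    rw [← sum_cuts (b := b) 0 T, (h.map (fun n => b n.2)).sum_eq, List.map_append, List.map_append,
      List.map_append, List.sum_append, List.sum_append, List.sum_append]
  rw [mul_inv_eq_iff_eq_mul]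
  ext u
  rw [Equiv.Perm.mul_apply, rr_apply hr]
  by_cases hu : InFl b (cuts b 0 T) u
  · rw [X_ex_eq hb T h hu, X_ex_eq hb T h' hu]
    have hu' : InFl b (A ++ B ++ C ++ D) u := (inFl_perm h).1 hu
    rw [inFl_append, inFl_append, inFl_append] at hu'
    have pos4 : ∀ {A B C D : List (ℝ × ι)}, (A ++ B ++ C ++ D).Nodup →
        (∀ n ∈ A ++ B ++ C ++ D, n ∈ {n | n ∈ cuts b 0 T}) →
        (InFl b A u → pos b (A ++ B ++ C ++ D) u = pos b A u) ∧
        (InFl b B u → pos b (A ++ B ++ C ++ D) u = (A.map (fun n => b n.2)).sum + pos b B u) ∧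
        (InFl b C u → pos b (A ++ B ++ C ++ D) u = (A.map (fun n => b n.2)).sum +
          (B.map (fun n => b n.2)).sum + pos b C u) ∧
        (InFl b D u → pos b (A ++ B ++ C ++ D) u = (A.map (fun n => b n.2)).sum +
          (B.map (fun n => b n.2)).sum + (C.map (fun n => b n.2)).sum + pos b D u) := by
      intro A B C D hn hm
      have n1 : (A ++ B ++ C).Nodup := (List.nodup_append.1 hn).1
      have n2 : (A ++ B).Nodup := (List.nodup_append.1 n1).1
      have m1 : ∀ n ∈ A ++ B ++ C, n ∈ {n | n ∈ cuts b 0 T} :=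
        fun n hn => hm n (List.mem_append_left _ hn)
      have m2 : ∀ n ∈ A ++ B, n ∈ {n | n ∈ cuts b 0 T} :=
        fun n hn => m1 n (List.mem_append_left _ hn)
      refine ⟨fun hi => ?_, fun hi => ?_, fun hi => ?_, fun hi => ?_⟩
      · rw [pos_append_left hN hn hm (inFl_append.2 (Or.inl (inFl_append.2 (Or.inl hi)))),
          pos_append_left hN n1 m1 (inFl_append.2 (Or.inl hi)), pos_append_left hN n2 m2 hi]
      · rw [pos_append_left hN hn hm (inFl_append.2 (Or.inl (inFl_append.2 (Or.inr hi)))),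
          pos_append_left hN n1 m1 (inFl_append.2 (Or.inr hi)), pos_append_right hN n2 m2 hi]
      · rw [pos_append_left hN hn hm (inFl_append.2 (Or.inr hi)),
          pos_append_right hN n1 m1 hi, List.map_append, List.sum_append]
      · rw [pos_append_right hN hn hm hi, List.map_append, List.sum_append, List.map_append,
          List.sum_append]
    obtain ⟨p1, p2, p3, p4⟩ := pos4 hW hm
    obtain ⟨q1, q2, q3, q4⟩ := pos4 hW' hm'
    unfold rrF
    rcases hu' with ((hu' | hu') | hu') | hu'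
    · obtain ⟨r1, r2⟩ := pos_mem hb hu'
      rw [p1 hu', q1 hu', if_neg, if_neg]
      · rintro ⟨h1, -⟩
        linarith
      · rintro ⟨h1, -⟩
        linarith
    · obtain ⟨r1, r2⟩ := pos_mem hb hu'
      rw [p2 hu', q3 hu', if_pos ⟨by linarith, by linarith⟩]
      ring
    · obtain ⟨r1, r2⟩ := pos_mem hb hu'
      rw [p3 hu', q2 hu', if_neg, if_pos ⟨by linarith, by linarith⟩]
      · ring
      · rintro ⟨-, h1⟩
        linarith
    · obtain ⟨r1, r2⟩ := pos_mem hb hu'
      rw [p4 hu', q4 hu', if_neg, if_neg]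
      · ring
      · rintro ⟨-, h1⟩
        linarith
      · rintro ⟨-, h1⟩
        linarith
  · rw [X_ex_fix hb hN (cuts_nodup hb 0 T) (fun n hn => hn) h hu,
      X_ex_fix hb hN (cuts_nodup hb 0 T) (fun n hn => hn) h' hu]
    rw [inFl_cuts hb, zero_add, hS] at hu
    unfold rrF
    rw [if_neg, if_neg]
    · rintro ⟨h1, h2⟩
      exact hu ⟨by linarith, by linarith⟩
    · rintro ⟨h1, h2⟩
      exact hu ⟨by linarith, by linarith⟩

end Pool.Agent.IET
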