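import Pool.Agent.IET.Lev5
import Pool.Agent.IET.Rot

/-!
# Groups of interval exchange transformations
-/

set_option autoImplicit false

namespace Pool.Agent.IET

open Pool.Agent.Helper29.BA

/-- The group generated by a basis. -/
def spanG {ι : Type} [Fintype ι] (b : ι → ℝ) : AddSubgroup ℝ where
  carrier := {x | ∃ c : ι → ℤ, x = ∑ a, (c a : ℝ) * b a}
  zero_mem' := ⟨0, by simp⟩
  add_mem' := by
    rintro x y ⟨c, rfl⟩ ⟨d, rfl⟩
    exact ⟨c + d, by simp [add_mul, Finset.sum_add_distrib]⟩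
  neg_mem' := by
    rintro x ⟨c, rfl⟩
    exact ⟨-c, by simp [Finset.sum_neg_distrib]⟩

theorem exists_sys (D : Finset ℝ) (h1 : (1 : ℝ) ∈ D) :
    ∃ (n : ℕ) (Γ : AddSubgroup ℝ) (_ : Sys (Fin n) Γ), ∀ d ∈ D, d ∈ Γ := by
  obtain ⟨n, b₀, p0, i0, hD⟩ := exists_basis D ⟨1, h1, one_pos⟩
  obtain ⟨b, s, hb0, pos, indep, sum, mem, cof⟩ := exists_bases b₀ p0 i0
  obtain ⟨c, hc⟩ := hD 1 h1
  obtain ⟨k₀, T, hT⟩ := cof c (by rw [← hc]; exact one_pos)
  refine ⟨n, spanG b₀, ⟨fun k => b (k₀ + k), fun k => s (k₀ + k), T, fun k a => pos _ a,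
    fun k => indep _, fun k a => sum _ a, fun k a => mem _ a, ?_, by
      simpa using hT.trans hc.symm⟩, fun d hd => hD d hd⟩
  rintro x ⟨c, rfl⟩ hx
  obtain ⟨k, w, hw⟩ := cof c hx
  refine ⟨k, w.flatMap (sub s k k₀), ?_⟩
  rw [sum_flat (b := b k), hw]
  intro a
  rw [Nat.add_comm k₀ k]
  exact sum_sub s b sum k k₀ a

namespace Sys

variable {ι : Type} [Fintype ι] [DecidableEq ι] {Γ : AddSubgroup ℝ} (S : Sys ι Γ)

/-- All the groups of the levels act by this group. -/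
noncomputable def K : Subgroup (Equiv.Perm ℝ) where
  carrier := {g | ∃ l, ∃ y : S.Gr l, S.pi l y = g}
  one_mem' := ⟨0, 1, map_one _⟩
  mul_mem' := by
    rintro g h ⟨l, y, rfl⟩ ⟨m, z, rfl⟩
    exact ⟨max l m, S.f l _ (le_max_left _ _) y * S.f m _ (le_max_right _ _) z, by
      rw [map_mul, pi_f, pi_f]⟩
  inv_mem' := by
    rintro g ⟨l, y, rfl⟩
    exact ⟨l, y⁻¹, map_inv _ _⟩

theorem pi_mem_K (l : ℕ) (y : S.Gr l) : S.pi l y ∈ S.K := ⟨l, y, rfl⟩

theorem K_mem {C : ∀ (G : Type) [Group G], Prop} (hC : ClosedClass C)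
    (hGL : ∀ n, C (Matrix.GeneralLinearGroup (Fin n) ℤ)) : C S.K := by
  refine hC.colimit ℕ (fun l => S.Gr l) (fun k l h => S.f k l h) (fun i j k h h' x =>
    S.f_f i j k h h' x) S.K (fun l => (S.pi l).codRestrict S.K (S.pi_mem_K l)) ?_ ?_ ?_ ?_
  · intro i j h x
    exact Subtype.ext (S.pi_f i j h x)
  · rintro ⟨g, l, y, rfl⟩
    exact ⟨l, y, rfl⟩
  · intro l y h
    exact S.kernel y (congrArg Subtype.val h)
  · intro l
    exact P_mem hC hGL (List.finite_toSet (S.bs l)) _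

/-- Restricted rotations are in the group. -/
theorem rr_mem_K {a b c : ℝ} (ha : a ∈ Γ) (hb : b ∈ Γ) (hc : c ∈ Γ) (h1 : (1 : ℝ) ∈ Γ)
    (h : 0 ≤ a ∧ a ≤ b ∧ b ≤ c ∧ c ≤ 1) : rr a b c ∈ S.K := by
  obtain ⟨h0, hab, hbc, hc1⟩ := h
  obtain ⟨l, -, hl⟩ := S.exists_words 0 [a, b - a, c - b, 1 - c] (by
    intro p hp
    simp only [List.mem_cons, List.not_mem_nil, or_false] at hp
    rcases hp with rfl | rfl | rfl | rfl
    · exact ⟨h0, ha⟩
    · exact ⟨by linarith, Γ.sub_mem hb ha⟩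
    · exact ⟨by linarith, Γ.sub_mem hc hb⟩
    · exact ⟨by linarith, Γ.sub_mem h1 hc⟩)
  obtain ⟨w1, e1⟩ := hl a (by simp)
  obtain ⟨w2, e2⟩ := hl (b - a) (by simp)
  obtain ⟨w3, e3⟩ := hl (c - b) (by simp)
  obtain ⟨w4, e4⟩ := hl (1 - c) (by simp)
  have hp : ((S.bs l).map Prod.snd).Perm (w1 ++ w2 ++ w3 ++ w4) := by
    rw [bs, cuts_snd]
    refine perm_of_sum (S.indep l) ?_
    rw [S.TT_sum]
    simp only [List.map_append, List.sum_append, e1, e2, e3, e4]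
    ring
  obtain ⟨W, hW, hW2⟩ := exists_map_eq Prod.snd hp
  obtain ⟨W3, D, rfl, hW3, hD⟩ := List.map_eq_append_iff.1 hW2
  obtain ⟨W4, C, rfl, hW4, hC⟩ := List.map_eq_append_iff.1 hW3
  obtain ⟨A, B, rfl, hA, hB⟩ := List.map_eq_append_iff.1 hW4
  have hp2 : (S.bs l).Perm (A ++ C ++ B ++ D) := by
    refine hW.trans (List.Perm.append_right D ?_)
    rw [List.append_assoc, List.append_assoc]
    exact List.Perm.append_left A List.perm_append_comm
  have key := X_rot (S.pos l) (S.TT l) (A := A) (B := B) (C := C) (D := D) hW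
  have len : ∀ {V : List (ℝ × ι)} {w : List ι}, V.map Prod.snd = w →
      (V.map fun n => S.b l n.2).sum = (w.map (S.b l)).sum := by
    rintro V w rfl
    rw [List.map_map]
    rfl
  rw [len hA, len hB, len hC, e1, e2, e3] at key
  have e5 : a + (b - a) = b := by ring
  have e6 : b + (c - b) = c := by ring
  rw [e5, e6] at key
  rw [← key]
  have hx : ∀ {V : List (ℝ × ι)}, (S.bs l).Perm V →
      X (ex (S.b l)) (cuts (S.b l) 0 (S.TT l)) V = S.pi l (X (S.x l) (S.bs l) V) := fun hV =>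
    (S.pi_X l (S.bs_nodup l) (fun _ h => h) hV).symm
  rw [hx hp2, hx hW]
  exact mul_mem (S.pi_mem_K _ _) (inv_mem (S.pi_mem_K _ _))

end Sys

/-- Restricted rotations with parameters in a set. -/
def RD (D : Finset ℝ) : Set (Equiv.Perm ℝ) :=
  {g | ∃ a ∈ D, ∃ b ∈ D, ∃ c ∈ D, (0 ≤ a ∧ a ≤ b ∧ b ≤ c ∧ c ≤ 1) ∧ g = rr a b c}

theorem RD_mono {D D' : Finset ℝ} (h : D ⊆ D') : RD D ⊆ RD D' := by
  rintro g ⟨a, ha, b, hb, c, hc, h'⟩
  exact ⟨a, h ha, b, h hb, c, h hc, h'⟩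

theorem exists_RD {g : Equiv.Perm ℝ} (hg : g ∈ Subgroup.closure
    {g : Equiv.Perm ℝ | ∃ a b c : ℝ, 0 ≤ a ∧ a ≤ b ∧ b ≤ c ∧ c ≤ 1 ∧ g = rr a b c}) :
    ∃ D : Finset ℝ, g ∈ Subgroup.closure (RD D) := by
  classical
  induction hg using Subgroup.closure_induction with
  | mem g h =>
    obtain ⟨a, b, c, h0, h1, h2, h3, rfl⟩ := h
    exact ⟨{a, b, c}, Subgroup.subset_closure
      ⟨a, by simp, b, by simp, c, by simp, ⟨h0, h1, h2, h3⟩, rfl⟩⟩
  | one => exact ⟨∅, one_mem _⟩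
  | mul g h _ _ ihg ihh =>
    obtain ⟨D, hD⟩ := ihg
    obtain ⟨D', hD'⟩ := ihh
    exact ⟨D ∪ D', mul_mem (Subgroup.closure_mono (RD_mono Finset.subset_union_left) hD)
      (Subgroup.closure_mono (RD_mono Finset.subset_union_right) hD')⟩
  | inv g _ ih =>
    obtain ⟨D, hD⟩ := ih
    exact ⟨D, inv_mem hD⟩

variable {C : ∀ (G : Type) [Group G], Prop}

/-- **Groups of interval exchange transformations.** -/
theorem mem_of_isIET (hC : ClosedClass C) (hGL : ∀ n, C (Matrix.GeneralLinearGroup (Fin n) ℤ))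
    (H : Subgroup (Equiv.Perm (Set.Ico (0 : ℝ) 1))) (hH : ∀ g ∈ H, IsIET g) : C H := by
  classical
  let φ : H →* Equiv.Perm ℝ :=
    { toFun := fun g => Equiv.Perm.ofSubtype g.1
      map_one' := map_one _
      map_mul' := fun g h => map_mul _ _ _ }
  have hφ : Function.Injective φ := fun g h e =>
    Subtype.ext (Equiv.Perm.ofSubtype_injective e)
  have hr : ∀ g : H, ∃ D : Finset ℝ, φ g ∈ Subgroup.closure (RD D) := fun g =>
    exists_RD (iet_mem_closure (hH g.1 g.2))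
  choose D hD using hr
  refine hC.ofClosure fun s => ?_
  obtain ⟨n, Γ, S, hS⟩ := exists_sys (insert 1 (s.biUnion D)) (Finset.mem_insert_self _ _)
  have hK : ∀ g ∈ Subgroup.closure (s : Set H), φ g ∈ S.K := by
    intro g hg
    have : Subgroup.closure (s : Set H) ≤ S.K.comap φ := by
      rw [Subgroup.closure_le]
      intro g hg
      have h1 : Subgroup.closure (RD (D g)) ≤ S.K := by
        rw [Subgroup.closure_le]
        rintro _ ⟨a, ha, b, hb, c, hc, h, rfl⟩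
        have : ∀ x ∈ D g, x ∈ Γ := fun x hx => hS x (Finset.mem_insert_of_mem
          (Finset.mem_biUnion.2 ⟨g, hg, hx⟩))
        exact S.rr_mem_K (this a ha) (this b hb) (this c hc) (hS 1 (Finset.mem_insert_self _ _)) h
      exact h1 (hD g)
    exact this hg
  refine hC.inj ((φ.comp (Subgroup.subtype _)).codRestrict S.K fun g => hK g.1 g.2) ?_
    (S.K_mem hC hGL)
  intro g h e
  exact Subtype.ext (hφ (congrArg Subtype.val e))

end Pool.Agent.IET
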