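import Pool.Agent.IET.YB
import Pool.Agent.AIR.Integral

/-!
# The groups `P N t`

The universal group `P N t` with a Yang-Baxter system with types embeds in the semidirect product of
the group without types and the permutations of the labels which preserve the types, and the group
without types in the semidirect product of a Coxeter group and the permutations of the labels.
-/

set_option autoImplicit false
set_option linter.unusedSectionVars false

namespace Pool.Agent.IET

open Pool.Agent.Helper29.BA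

section

variable {L G ι : Type} [DecidableEq L] [Group G]

/-- The relations of `P N t`. -/
def rels (N : Set L) (t : L → ι) : Set (FreeGroup (L × L)) :=
  {w | ∃ i j, ¬ (i ∈ N ∧ j ∈ N ∧ i ≠ j) ∧ w = FreeGroup.of (i, j)} ∪
  {w | ∃ i ∈ N, ∃ j ∈ N, i ≠ j ∧ w = FreeGroup.of (i, j) * FreeGroup.of (j, i)} ∪
  {w | ∃ i ∈ N, ∃ j ∈ N, ∃ k ∈ N, ∃ l ∈ N, i ≠ j ∧ k ≠ l ∧ i ≠ k ∧ i ≠ l ∧ j ≠ k ∧ j ≠ l ∧
    w = FreeGroup.of (i, j) * FreeGroup.of (k, l) *
      (FreeGroup.of (k, l) * FreeGroup.of (i, j))⁻¹} ∪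
  {w | ∃ i ∈ N, ∃ j ∈ N, ∃ k ∈ N, i ≠ j ∧ i ≠ k ∧ j ≠ k ∧
    w = FreeGroup.of (i, j) * FreeGroup.of (i, k) * FreeGroup.of (j, k) *
      (FreeGroup.of (j, k) * FreeGroup.of (i, k) * FreeGroup.of (i, j))⁻¹} ∪
  {w | ∃ i ∈ N, ∃ j ∈ N, i ≠ j ∧ t i = t j ∧
    w = FreeGroup.of (i, j) * (FreeGroup.of (j, i))⁻¹} ∪
  {w | ∃ i ∈ N, ∃ j ∈ N, ∃ k ∈ N, i ≠ j ∧ i ≠ k ∧ j ≠ k ∧ t i = t j ∧
    w = FreeGroup.of (i, j) * FreeGroup.of (i, k) *
      (FreeGroup.of (j, k) * FreeGroup.of (i, j))⁻¹}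

/-- The universal group with a Yang-Baxter system with types. -/
abbrev P (N : Set L) (t : L → ι) : Type := PresentedGroup (rels N t)

/-- The generators. -/
def xg (N : Set L) (t : L → ι) (i j : L) : P N t := PresentedGroup.of (i, j)

omit [DecidableEq L] in
theorem rel_eq_one {N : Set L} {t : L → ι} {w : FreeGroup (L × L)} (h : w ∈ rels N t) :
    (PresentedGroup.mk (rels N t) w) = 1 := by
  exact (QuotientGroup.eq_one_iff _).2 (Subgroup.subset_normalClosure h)

theorem xg_eq_one {N : Set L} {t : L → ι} {i j : L} (h : ¬ (i ∈ N ∧ j ∈ N ∧ i ≠ j)) :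
    xg N t i j = 1 :=
  rel_eq_one (Or.inl (Or.inl (Or.inl (Or.inl (Or.inl ⟨i, j, h, rfl⟩)))))

theorem xg_tyb (N : Set L) (t : L → ι) : TYB N t (xg N t) where
  inv i hi j hj hij := by
    have h := rel_eq_one (N := N) (t := t)
      (Or.inl (Or.inl (Or.inl (Or.inl (Or.inr ⟨i, hi, j, hj, hij, rfl⟩)))))
    exact h
  comm i hi j hj k hk l hl h1 h2 h3 h4 h5 h6 := by
    have h := rel_eq_one (N := N) (t := t)
      (Or.inl (Or.inl (Or.inl (Or.inr ⟨i, hi, j, hj, k, hk, l, hl, h1, h2, h3, h4, h5, h6, rfl⟩))))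
    exact mul_inv_eq_one.1 h
  yb i hi j hj k hk h1 h2 h3 := by
    have h := rel_eq_one (N := N) (t := t)
      (Or.inl (Or.inl (Or.inr ⟨i, hi, j, hj, k, hk, h1, h2, h3, rfl⟩)))
    exact mul_inv_eq_one.1 h
  sym i hi j hj h1 h2 := by
    have h := rel_eq_one (N := N) (t := t) (Or.inl (Or.inr ⟨i, hi, j, hj, h1, h2, rfl⟩))
    exact mul_inv_eq_one.1 h
  conj i hi j hj k hk h1 h2 h3 h4 := by
    have h := rel_eq_one (N := N) (t := t) (Or.inr ⟨i, hi, j, hj, k, hk, h1, h2, h3, h4, rfl⟩)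
    exact mul_inv_eq_one.1 h

open Classical in
/-- The universal property. -/
noncomputable def lift {N : Set L} {t : L → ι} (x : L → L → G) (hx : TYB N t x) : P N t →* G :=
  PresentedGroup.toGroup (f := fun p => if p.1 ∈ N ∧ p.2 ∈ N ∧ p.1 ≠ p.2 then x p.1 p.2 else 1)
    (by
      have hf : ∀ i ∈ N, ∀ j ∈ N, i ≠ j → FreeGroup.lift (fun p : L × L =>
          if p.1 ∈ N ∧ p.2 ∈ N ∧ p.1 ≠ p.2 then x p.1 p.2 else 1) (FreeGroup.of (i, j)) = x i j := by
        intro i hi j hj hij
        rw [FreeGroup.lift_apply_of, if_pos ⟨hi, hj, hij⟩]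
      rintro r (((((⟨i, j, h, rfl⟩ | ⟨i, hi, j, hj, hij, rfl⟩) |
        ⟨i, hi, j, hj, k, hk, l, hl, h1, h2, h3, h4, h5, h6, rfl⟩) |
        ⟨i, hi, j, hj, k, hk, h1, h2, h3, rfl⟩) | ⟨i, hi, j, hj, hij, h1, rfl⟩) |
        ⟨i, hi, j, hj, k, hk, h1, h2, h3, h4, rfl⟩)
      · rw [FreeGroup.lift_apply_of, if_neg h]
      · rw [map_mul, hf i hi j hj hij, hf j hj i hi hij.symm]
        exact hx.inv i hi j hj hij
      · rw [map_mul, map_inv, mul_inv_eq_one, map_mul, map_mul, hf i hi j hj h1, hf k hk l hl h2]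
        exact hx.comm i hi j hj k hk l hl h1 h2 h3 h4 h5 h6
      · rw [map_mul, map_inv, mul_inv_eq_one, map_mul, map_mul, map_mul, map_mul,
          hf i hi j hj h1, hf i hi k hk h2, hf j hj k hk h3]
        exact hx.yb i hi j hj k hk h1 h2 h3
      · rw [map_mul, map_inv, mul_inv_eq_one, hf i hi j hj hij, hf j hj i hi hij.symm]
        exact hx.sym i hi j hj hij h1
      · rw [map_mul, map_inv, mul_inv_eq_one, map_mul, map_mul, hf i hi j hj h1, hf i hi k hk h2,
          hf j hj k hk h3]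
        exact hx.conj i hi j hj k hk h1 h2 h3 h4)

theorem lift_xg {N : Set L} {t : L → ι} {x : L → L → G} (hx : TYB N t x) {i j : L}
    (hi : i ∈ N) (hj : j ∈ N) (hij : i ≠ j) : lift x hx (xg N t i j) = x i j := by
  classical
  rw [lift, xg, PresentedGroup.toGroup.of, if_pos ⟨hi, hj, hij⟩]

theorem hom_ext {N : Set L} {t : L → ι} {f g : P N t →* G}
    (h : ∀ i ∈ N, ∀ j ∈ N, i ≠ j → f (xg N t i j) = g (xg N t i j)) : f = g := by
  refine PresentedGroup.ext fun p => ?_
  change f (xg N t p.1 p.2) = g (xg N t p.1 p.2)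
  by_cases hp : p.1 ∈ N ∧ p.2 ∈ N ∧ p.1 ≠ p.2
  · exact h _ hp.1 _ hp.2.1 hp.2.2
  · rw [xg_eq_one hp, map_one, map_one]

/-- Induction: every element is a product of generators. -/
theorem P_induction {N : Set L} {t : L → ι} {q : P N t → Prop} (h1 : q 1)
    (hm : ∀ g, q g → ∀ i ∈ N, ∀ j ∈ N, i ≠ j → q (g * xg N t i j)) (g : P N t) : q g := by
  have hm' : ∀ g, q g → ∀ i j, q (g * xg N t i j) := by
    intro g hg i j
    by_cases h : i ∈ N ∧ j ∈ N ∧ i ≠ j
    · exact hm g hg i h.1 j h.2.1 h.2.2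
    · rw [xg_eq_one h, mul_one]
      exact hg
  have hinv : ∀ i j, (xg N t i j)⁻¹ = xg N t j i := by
    intro i j
    by_cases h : i ∈ N ∧ j ∈ N ∧ i ≠ j
    · exact inv_eq_of_mul_eq_one_right ((xg_tyb N t).inv i h.1 j h.2.1 h.2.2)
    · have h' : ¬ (j ∈ N ∧ i ∈ N ∧ j ≠ i) := fun h' => h ⟨h'.2.1, h'.1, h'.2.2.symm⟩
      rw [xg_eq_one h, xg_eq_one h', inv_one]
  obtain ⟨w, rfl⟩ := QuotientGroup.mk_surjective g
  have key : ∀ w : FreeGroup (L × L), ∀ g : P N t, q g → q (g * PresentedGroup.mk (rels N t) w) := by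
    intro w
    induction w using FreeGroup.induction_on with
    | C1 => intro g hg; rw [map_one, mul_one]; exact hg
    | of p =>
      intro g hg
      exact hm' g hg p.1 p.2
    | inv_of p _ =>
      intro g hg
      rw [map_inv]
      change q (g * (xg N t p.1 p.2)⁻¹)
      rw [hinv]
      exact hm' g hg _ _
    | mul a b ha hb =>
      intro g hg
      rw [map_mul, ← mul_assoc]
      exact hb _ (ha g hg)
  have := key w 1 h1
  rwa [one_mul] at this

end

section

variable {L G ι κ : Type} [DecidableEq L] [Group G]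

/-- The permutations which fix all labels outside `N` and preserve the types. -/
def SN (N : Set L) (t : L → ι) : Subgroup (Equiv.Perm L) where
  carrier := {s | (∀ a, a ∉ N → s a = a) ∧ ∀ a, t (s a) = t a}
  one_mem' := ⟨fun _ _ => rfl, fun _ => rfl⟩
  mul_mem' := by
    rintro s s' ⟨h1, h2⟩ ⟨h3, h4⟩
    refine ⟨fun a ha => ?_, fun a => ?_⟩
    · rw [Equiv.Perm.mul_apply, h3 a ha, h1 a ha]
    · rw [Equiv.Perm.mul_apply, h2, h4]
  inv_mem' := by
    rintro s ⟨h1, h2⟩
    refine ⟨fun a ha => ?_, fun a => ?_⟩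
    · rw [Equiv.Perm.inv_eq_iff_eq]
      exact (h1 a ha).symm
    · rw [← h2 (s⁻¹ a)]
      exact congrArg t (s.apply_symm_apply a)

variable {N : Set L} {t : L → ι}

theorem SN_mem (s : SN N t) {a : L} (ha : a ∈ N) : (s : Equiv.Perm L) a ∈ N := by
  by_contra h
  have h1 := s.2.1 _ h
  have h2 : (s : Equiv.Perm L) a = a := (s : Equiv.Perm L).injective h1
  exact h (by rwa [h2])

theorem SN_finite (hN : N.Finite) : Finite (SN N t) := by
  have := hN.to_subtype
  let f : SN N t → (N → N) := fun s a => ⟨(s : Equiv.Perm L) a, SN_mem s a.2⟩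
  refine Finite.of_injective f fun s s' h => ?_
  refine Subtype.ext (Equiv.ext fun a => ?_)
  by_cases ha : a ∈ N
  · exact congrArg Subtype.val (congrFun h ⟨a, ha⟩)
  · rw [s.2.1 a ha, s'.2.1 a ha]

theorem swap_mem_SN {i j : L} (hi : i ∈ N) (hj : j ∈ N) (ht : t i = t j) :
    Equiv.swap i j ∈ SN N t := by
  refine ⟨fun a ha => ?_, fun a => ?_⟩
  · refine Equiv.swap_apply_of_ne_of_ne ?_ ?_
    · rintro rfl; exact ha hi
    · rintro rfl; exact ha hj
  · rw [Equiv.swap_apply_def]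
    split_ifs with h1 h2
    · rw [h1, ht]
    · rw [h2, ht]
    · rfl

open Classical in
/-- The transposition of two labels of the same type. -/
noncomputable def sw (N : Set L) (t : L → ι) (i j : L) : SN N t :=
  if h : i ∈ N ∧ j ∈ N ∧ t i = t j then ⟨Equiv.swap i j, swap_mem_SN h.1 h.2.1 h.2.2⟩ else 1

theorem coe_sw {i j : L} (hi : i ∈ N) (hj : j ∈ N) (ht : t i = t j) :
    (sw N t i j : Equiv.Perm L) = Equiv.swap i j := by
  rw [sw, dif_pos ⟨hi, hj, ht⟩]

/-! ### The action on the group without types -/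

theorem act_tyb (s : SN N t) : TYB N (id : L → L) (fun i j => xg N (id : L → L)
    ((s : Equiv.Perm L) i) ((s : Equiv.Perm L) j)) := by
  have hm : ∀ {a}, a ∈ N → (s : Equiv.Perm L) a ∈ N := fun ha => SN_mem s ha
  have hn : ∀ {a b : L}, a ≠ b → (s : Equiv.Perm L) a ≠ (s : Equiv.Perm L) b :=
    fun h h' => h ((s : Equiv.Perm L).injective h')
  have H := xg_tyb N (id : L → L)
  constructor
  · constructor
    · intro i hi j hj h
      exact H.inv _ (hm hi) _ (hm hj) (hn h)
    · intro i hi j hj k hk l hl h1 h2 h3 h4 h5 h6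
      exact H.comm _ (hm hi) _ (hm hj) _ (hm hk) _ (hm hl) (hn h1) (hn h2) (hn h3) (hn h4) (hn h5)
        (hn h6)
    · intro i hi j hj k hk h1 h2 h3
      exact H.yb _ (hm hi) _ (hm hj) _ (hm hk) (hn h1) (hn h2) (hn h3)
  · intro i hi j hj h1 h2
    exact absurd h2 h1
  · intro i hi j hj k hk h1 h2 h3 h4
    exact absurd h4 h1

/-- The action of a permutation of the labels. -/
noncomputable def actP (s : SN N t) : P N (id : L → L) →* P N (id : L → L) := lift _ (act_tyb s)

theorem actP_xg (s : SN N t) (i j : L) : actP s (xg N id i j) =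
    xg N (id : L → L) ((s : Equiv.Perm L) i) ((s : Equiv.Perm L) j) := by
  by_cases h : i ∈ N ∧ j ∈ N ∧ i ≠ j
  · exact lift_xg (act_tyb s) h.1 h.2.1 h.2.2
  · have h' : ¬ ((s : Equiv.Perm L) i ∈ N ∧ (s : Equiv.Perm L) j ∈ N ∧
        (s : Equiv.Perm L) i ≠ (s : Equiv.Perm L) j) := by
      rintro ⟨h1, h2, h3⟩
      refine h ⟨?_, ?_, fun h4 => h3 (by rw [h4])⟩
      · by_contra h4
        rw [s.2.1 i h4] at h1
        exact h4 h1
      · by_contra h4
        rw [s.2.1 j h4] at h2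
        exact h4 h2
    rw [xg_eq_one h, xg_eq_one h', map_one]

theorem actP_one : actP (1 : SN N t) = MonoidHom.id _ :=
  hom_ext fun i _ j _ _ => by rw [actP_xg]; rfl

theorem actP_mul (s s' : SN N t) : actP (s * s') = (actP s).comp (actP s') :=
  hom_ext fun i _ j _ _ => by
    rw [actP_xg, MonoidHom.comp_apply, actP_xg, actP_xg]
    rfl

/-- The action. -/
noncomputable def phP (N : Set L) (t : L → ι) : SN N t →* MulAut (P N (id : L → L)) :=
  MonoidHom.mk' (fun s => MonoidHom.toMulEquiv (actP s) (actP s⁻¹)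
    (by rw [← actP_mul, inv_mul_cancel, actP_one]) (by rw [← actP_mul, mul_inv_cancel, actP_one]))
    (fun s s' => by
      refine MulEquiv.ext fun g => ?_
      change actP (s * s') g = actP s (actP s' g)
      rw [actP_mul]
      rfl)

theorem phP_xg (s : SN N t) (i j : L) : phP N t s (xg N id i j) =
    xg N (id : L → L) ((s : Equiv.Perm L) i) ((s : Equiv.Perm L) j) := actP_xg s i j

/-! ### The semidirect product -/

/-- The group without types, with the permutations which preserve the types. -/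
abbrev T (N : Set L) (t : L → ι) : Type := P N (id : L → L) ⋊[phP N t] SN N t

open SemidirectProduct in
theorem inr_mul_inl (s : SN N t) (i j : L) :
    (inr s : T N t) * inl (xg N id i j) =
      inl (xg N id ((s : Equiv.Perm L) i) ((s : Equiv.Perm L) j)) * inr s := by
  rw [← phP_xg, inl_aut]
  simp

open Classical in
/-- The image of the generators. -/
noncomputable def xh (N : Set L) (t : L → ι) (i j : L) : T N t :=
  if t i = t j then SemidirectProduct.inr (sw N t i j) else SemidirectProduct.inl (xg N id i j)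

theorem xh_same {i j : L} (h : t i = t j) : xh N t i j = SemidirectProduct.inr (sw N t i j) :=
  if_pos h

theorem xh_diff {i j : L} (h : t i ≠ t j) : xh N t i j = SemidirectProduct.inl (xg N id i j) :=
  if_neg h

theorem sw_mul_sw {i j k l i' j' k' l' : L} (hi : i ∈ N) (hj : j ∈ N) (hk : k ∈ N) (hl : l ∈ N)
    (hi' : i' ∈ N) (hj' : j' ∈ N) (hk' : k' ∈ N) (hl' : l' ∈ N)
    (h1 : t i = t j) (h2 : t k = t l) (h3 : t i' = t j') (h4 : t k' = t l')
    (h : Equiv.swap i j * Equiv.swap k l = Equiv.swap i' j' * Equiv.swap k' l') :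
    sw N t i j * sw N t k l = sw N t i' j' * sw N t k' l' := by
  refine Subtype.ext ?_
  rw [Subgroup.coe_mul, Subgroup.coe_mul, coe_sw hi hj h1, coe_sw hk hl h2, coe_sw hi' hj' h3,
    coe_sw hk' hl' h4, h]

/-- Moving a transposition of labels past a generator. -/
theorem sw_xh {i j : L} (hi : i ∈ N) (hj : j ∈ N) (ht : t i = t j) {k l : L} (hk : k ∈ N)
    (hl : l ∈ N) :
    (SemidirectProduct.inr (sw N t i j) : T N t) * xh N t k l =
      xh N t (Equiv.swap i j k) (Equiv.swap i j l) * SemidirectProduct.inr (sw N t i j) := by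
  have hs : ∀ a, t (Equiv.swap i j a) = t a := (swap_mem_SN hi hj ht).2
  have hm : ∀ {a}, a ∈ N → Equiv.swap i j a ∈ N := fun ha => by
    have := SN_mem (sw N t i j) ha
    rwa [coe_sw hi hj ht] at this
  by_cases h : t k = t l
  · rw [xh_same h, xh_same (by rw [hs, hs, h]), ← map_mul, ← map_mul]
    congr 1
    refine sw_mul_sw hi hj hk hl (hm hk) (hm hl) hi hj ht h (by rw [hs, hs, h]) ht ?_
    rw [Equiv.mul_swap_eq_swap_mul]
  · rw [xh_diff h, xh_diff (by rw [hs, hs]; exact h), inr_mul_inl, coe_sw hi hj ht]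

theorem xh_tyb (N : Set L) (t : L → ι) : TYB N t (xh N t) := by
  have H := xg_tyb N (id : L → L)
  have hconj : ∀ i ∈ N, ∀ j ∈ N, ∀ k ∈ N, i ≠ j → i ≠ k → j ≠ k → t i = t j →
      xh N t i j * xh N t i k = xh N t j k * xh N t i j := by
    intro i hi j hj k hk h1 h2 h3 h4
    rw [xh_same h4, sw_xh hi hj h4 hi hk, Equiv.swap_apply_left,
      Equiv.swap_apply_of_ne_of_ne h2.symm h3.symm]
  have hconj' : ∀ i ∈ N, ∀ j ∈ N, ∀ k ∈ N, i ≠ j → i ≠ k → j ≠ k → t i = t j →
      xh N t i j * xh N t k i = xh N t k j * xh N t i j := by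
    intro i hi j hj k hk h1 h2 h3 h4
    rw [xh_same h4, sw_xh hi hj h4 hk hi, Equiv.swap_apply_left,
      Equiv.swap_apply_of_ne_of_ne h2.symm h3.symm]
  have hsym : ∀ i ∈ N, ∀ j ∈ N, t i = t j → xh N t i j = xh N t j i := by
    intro i hi j hj h4
    rw [xh_same h4, xh_same h4.symm]
    congr 1
    refine Subtype.ext ?_
    rw [coe_sw hi hj h4, coe_sw hj hi h4.symm, Equiv.swap_comm]
  have hinv : ∀ i ∈ N, ∀ j ∈ N, i ≠ j → xh N t i j * xh N t j i = 1 := by
    intro i hi j hj hij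
    by_cases h : t i = t j
    · rw [← hsym i hi j hj h, xh_same h, ← map_mul]
      have : sw N t i j * sw N t i j = 1 := by
        refine Subtype.ext ?_
        rw [Subgroup.coe_mul, coe_sw hi hj h, Equiv.swap_mul_self]
        rfl
      rw [this, map_one]
    · rw [xh_diff h, xh_diff (Ne.symm h), ← map_mul, H.inv i hi j hj hij, map_one]
  constructor
  · constructor
    · exact hinv
    · intro i hi j hj k hk l hl h1 h2 h3 h4 h5 h6
      by_cases h : t i = t j
      · rw [xh_same h, sw_xh hi hj h hk hl, Equiv.swap_apply_of_ne_of_ne h3.symm h5.symm,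
          Equiv.swap_apply_of_ne_of_ne h4.symm h6.symm]
      · by_cases h' : t k = t l
        · rw [xh_same h', sw_xh hk hl h' hi hj, Equiv.swap_apply_of_ne_of_ne h3 h4,
            Equiv.swap_apply_of_ne_of_ne h5 h6]
        · rw [xh_diff h, xh_diff h', ← map_mul, ← map_mul,
            H.comm i hi j hj k hk l hl h1 h2 h3 h4 h5 h6]
    · intro i hi j hj k hk h1 h2 h3
      by_cases hij : t i = t j
      · -- `σ x_ik x_jk = x_jk x_ik σ`
        rw [hconj i hi j hj k hk h1 h2 h3 hij, mul_assoc]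
        have h4 := hconj j hj i hi k hk h1.symm h3 h2 hij.symm
        rw [← hsym i hi j hj hij] at h4
        rw [h4, ← mul_assoc]
      · by_cases hjk : t j = t k
        · -- `x_ij x_ik σ = σ x_ik x_ij`
          have h4 := hconj' k hk j hj i hi h3.symm h2.symm h1.symm hjk.symm
          -- `x_kj x_ik = x_ij x_kj`
          have h5 := hconj' j hj k hk i hi h3 h1.symm h2.symm hjk
          -- `x_jk x_ij = x_ik x_jk`
          rw [← hsym j hj k hk hjk] at h4
          rw [mul_assoc, ← h5, ← mul_assoc, ← h4]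
        · by_cases hik : t i = t k
          · have h4 := hconj' k hk i hi j hj h2.symm h3.symm h1 hik.symm
            have h5 := hconj i hi k hk j hj h2 h1 h3.symm hik
            rw [← hsym i hi k hk hik] at h4
            rw [mul_assoc, h4, ← mul_assoc, hinv i hi j hj h1, one_mul, mul_assoc, h5, ← mul_assoc,
              hinv j hj k hk h3, one_mul]
          · rw [xh_diff hij, xh_diff hik, xh_diff hjk, ← map_mul, ← map_mul, ← map_mul, ← map_mul,
              H.yb i hi j hj k hk h1 h2 h3]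
  · intro i hi j hj h1 h2
    exact hsym i hi j hj h2
  · exact hconj

end

section

variable {L G ι κ : Type} [DecidableEq L] [Group G] {N : Set L} {t : L → ι}

theorem perm_map (s : SN N t) {U : List L} (hU : U.Nodup) (hm : ∀ a, a ∈ U ↔ a ∈ N) :
    U.Perm (U.map (s : Equiv.Perm L)) := by
  rw [List.perm_ext_iff_of_nodup hU (hU.map (s : Equiv.Perm L).injective)]
  intro a
  rw [hm, List.mem_map]
  constructor
  · intro ha
    refine ⟨(s : Equiv.Perm L)⁻¹ a, ?_, (s : Equiv.Perm L).apply_symm_apply a⟩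
    rw [hm]
    exact SN_mem s⁻¹ ha
  · rintro ⟨b, hb, rfl⟩
    exact SN_mem s ((hm b).1 hb)

/-- The cocycle. -/
def ee (N : Set L) (t : L → ι) (U : List L) (s : SN N t) : P N t :=
  X (xg N t) U (U.map (s : Equiv.Perm L))

theorem ee_eq {U V : List L} (hU : U.Nodup) (hm : ∀ a, a ∈ U ↔ a ∈ N) (h : U.Perm V)
    (s : SN N t) : X (xg N t) V (V.map (s : Equiv.Perm L)) = ee N t U s :=
  (X_map_perm (xg_tyb N t) (s : Equiv.Perm L) (fun a _ => s.2.2 a) hU (fun a ha => (hm a).1 ha) h
    (perm_map s hU hm)).symm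

theorem ee_mul {U : List L} (hU : U.Nodup) (hm : ∀ a, a ∈ U ↔ a ∈ N) (g h : SN N t) :
    ee N t U (g * h) = ee N t U h * ee N t U g := by
  have h1 : U.map ((g * h : SN N t) : Equiv.Perm L) =
      (U.map (h : Equiv.Perm L)).map (g : Equiv.Perm L) := by
    rw [List.map_map]
    rfl
  have h2 := perm_map h hU hm
  have h3 : (U.map (h : Equiv.Perm L)).Perm ((U.map (h : Equiv.Perm L)).map (g : Equiv.Perm L)) := by
    have h4 := (perm_map g hU hm)
    exact (h2.symm.trans h4).trans (h2.map _)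
  rw [← ee_eq hU hm h2 g, ee, ee, h1]
  exact (X_mul (xg_tyb N t).toYB hU (fun a ha => (hm a).1 ha) h2 h3).symm

/-- The permutations of the labels inside `P N t`. -/
def cc {U : List L} (hU : U.Nodup) (hm : ∀ a, a ∈ U ↔ a ∈ N) : SN N t →* P N t :=
  MonoidHom.mk' (fun s => (ee N t U s)⁻¹) (fun g h => by
    rw [ee_mul hU hm, mul_inv_rev])

theorem cc_swap {U : List L} (hU : U.Nodup) (hm : ∀ a, a ∈ U ↔ a ∈ N) {i j : L} (hi : i ∈ N)
    (hj : j ∈ N) (hij : i ≠ j) (ht : t i = t j) : cc hU hm (sw N t i j) = xg N t i j := by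
  change (X (xg N t) U (U.map (sw N t i j : Equiv.Perm L)))⁻¹ = _
  rw [coe_sw hi hj ht, X_swap (xg_tyb N t) hU (fun a ha => (hm a).1 ha) ((hm i).2 hi) ((hm j).2 hj)
    hij ht, inv_eq_iff_mul_eq_one]
  nth_rw 2 [(xg_tyb N t).sym i hi j hj hij ht]
  exact (xg_tyb N t).inv i hi j hj hij

theorem cc_conj {U : List L} (hU : U.Nodup) (hm : ∀ a, a ∈ U ↔ a ∈ N) (s : SN N t) {i j : L}
    (hi : i ∈ N) (hj : j ∈ N) (hij : i ≠ j) :
    xg N t ((s : Equiv.Perm L) i) ((s : Equiv.Perm L) j) =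
      cc hU hm s * xg N t i j * (cc hU hm s)⁻¹ := by
  have H := xg_tyb N t
  set V := i :: j :: (U.erase i).erase j with hV
  set W := j :: i :: (U.erase i).erase j with hW
  have hUi : i ∈ U := (hm i).2 hi
  have hUj : j ∈ U.erase i := (List.mem_erase_of_ne hij.symm).2 ((hm j).2 hj)
  have h1 : U.Perm V := (List.perm_cons_erase hUi).trans ((List.perm_cons_erase hUj).cons i)
  have h2 : V.Perm W := List.Perm.swap _ _ _
  have hVn : V.Nodup := h1.nodup_iff.1 hU
  have hVN : ∀ a ∈ V, a ∈ N := fun a ha => (hm a).1 (h1.mem_iff.2 ha)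
  have hsn : (V.map (s : Equiv.Perm L)).Nodup := hVn.map (s : Equiv.Perm L).injective
  have hsN : ∀ a ∈ V.map (s : Equiv.Perm L), a ∈ N := by
    intro a ha
    obtain ⟨b, hb, rfl⟩ := List.mem_map.1 ha
    exact SN_mem s (hVN b hb)
  have e1 : X (xg N t) V W = xg N t i j := by
    have h := X_ctx (x := xg N t) H.toYB (A := []) (V := [i, j]) (W := [j, i])
      (B := (U.erase i).erase j) hVn hVN (List.Perm.swap _ _ _)
    rw [X_pair _ hij] at h
    exact h
  have e2 : X (xg N t) (V.map (s : Equiv.Perm L)) (W.map (s : Equiv.Perm L)) =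
      xg N t ((s : Equiv.Perm L) i) ((s : Equiv.Perm L) j) := by
    have h := X_ctx (x := xg N t) H.toYB (A := []) (V := [(s : Equiv.Perm L) i,
      (s : Equiv.Perm L) j]) (W := [(s : Equiv.Perm L) j, (s : Equiv.Perm L) i])
      (B := ((U.erase i).erase j).map (s : Equiv.Perm L)) hsn hsN (List.Perm.swap _ _ _)
    rw [X_pair _ (fun h => hij ((s : Equiv.Perm L).injective h))] at h
    exact h
  have e3 := ee_eq (t := t) hU hm h1 s
  have e4 := ee_eq (t := t) hU hm (h1.trans h2) s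
  have hp : U.Perm (U.map (s : Equiv.Perm L)) := perm_map s hU hm
  have hVs : V.Perm (V.map (s : Equiv.Perm L)) := (h1.symm.trans hp).trans (h1.map _)
  have hWs : W.Perm (W.map (s : Equiv.Perm L)) :=
    ((h1.trans h2).symm.trans hp).trans ((h1.trans h2).map _)
  have e5 := X_mul (x := xg N t) H.toYB hVn hVN h2 hWs
  have e6 := X_mul (x := xg N t) H.toYB hVn hVN hVs (h2.map (s : Equiv.Perm L))
  rw [e1, e4] at e5
  rw [e3, e2] at e6
  change _ = (ee N t U s)⁻¹ * xg N t i j * ((ee N t U s)⁻¹)⁻¹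
  rw [inv_inv, mul_assoc, e5, ← e6, inv_mul_cancel_left]

/-- Forgetting that the types are the same. -/
theorem xg_tyb_id (N : Set L) (t : L → ι) : TYB N (id : L → L) (xg N t) := by
  have H := xg_tyb N t
  exact ⟨H.toYB, fun i _ j _ h h' => absurd h' h, fun i _ j _ k _ h _ _ h' => absurd h' h⟩

/-- The retraction. -/
noncomputable def RR {U : List L} (hU : U.Nodup) (hm : ∀ a, a ∈ U ↔ a ∈ N) : T N t →* P N t :=
  SemidirectProduct.lift (lift (xg N t) (xg_tyb_id N t)) (cc hU hm) (fun s => by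
    refine hom_ext fun i hi j hj hij => ?_
    change lift (xg N t) (xg_tyb_id N t) (phP N t s (xg N id i j)) =
      cc hU hm s * lift (xg N t) (xg_tyb_id N t) (xg N id i j) * (cc hU hm s)⁻¹
    rw [phP_xg, lift_xg (xg_tyb_id N t) hi hj hij, lift_xg (xg_tyb_id N t) (SN_mem s hi)
      (SN_mem s hj) (fun h => hij ((s : Equiv.Perm L).injective h))]
    exact cc_conj hU hm s hi hj hij)

theorem lift_xh_injective (hN : N.Finite) : Function.Injective (lift (xh N t) (xh_tyb N t)) := by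
  classical
  set U := hN.toFinset.toList with hU'
  have hU : U.Nodup := Finset.nodup_toList _
  have hm : ∀ a, a ∈ U ↔ a ∈ N := fun a => by rw [hU', Finset.mem_toList, Set.Finite.mem_toFinset]
  have key : (RR hU hm).comp (lift (xh N t) (xh_tyb N t)) = MonoidHom.id (P N t) := by
    refine hom_ext fun i hi j hj hij => ?_
    rw [MonoidHom.comp_apply, lift_xg _ hi hj hij, MonoidHom.id_apply]
    by_cases h : t i = t j
    · rw [xh_same h, RR, SemidirectProduct.lift_inr, cc_swap hU hm hi hj hij h]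
    · rw [xh_diff h, RR, SemidirectProduct.lift_inl, lift_xg _ hi hj hij]
  intro a b hab
  have := congrArg (RR hU hm) hab
  rw [← MonoidHom.comp_apply, ← MonoidHom.comp_apply, key] at this
  exact this

end

section

/-! ### Two involutions -/

section

variable {G : Type} [Group G] {a b : G}

theorem self_inv (ha : a * a = 1) : a⁻¹ = a := inv_eq_of_mul_eq_one_right ha

theorem comm_of_sq (ha : a * a = 1) (hb : b * b = 1) (h : (a * b) ^ 2 = 1) : a * b = b * a := by
  rw [pow_two] at h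
  have h1 := self_inv h
  rw [mul_inv_rev, self_inv ha, self_inv hb] at h1
  exact h1.symm

theorem sq_of_comm (ha : a * a = 1) (hb : b * b = 1) (h : a * b = b * a) : (a * b) ^ 2 = 1 := by
  rw [pow_two]
  nth_rw 2 [h]
  rw [mul_assoc, ← mul_assoc b, hb, one_mul, ha]

theorem braid_of_cube (ha : a * a = 1) (hb : b * b = 1) (h : (a * b) ^ 3 = 1) :
    a * b * a = b * a * b := by
  have h1 : (a * b * a) * (b * a * b) = 1 := by
    rw [← h]
    simp only [pow_succ, pow_zero, one_mul, mul_assoc]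
  have h2 := eq_inv_of_mul_eq_one_left h1
  rw [mul_inv_rev, mul_inv_rev, self_inv ha, self_inv hb, ← mul_assoc] at h2
  exact h2

theorem cube_of_braid (ha : a * a = 1) (hb : b * b = 1) (h : a * b * a = b * a * b) :
    (a * b) ^ 3 = 1 := by
  have h1 : (a * b) ^ 3 = (a * b * a) * (b * a * b) := by
    simp only [pow_succ, pow_zero, one_mul, mul_assoc]
  rw [h1, h]
  calc b * a * b * (b * a * b) = b * a * (b * b) * a * b := by simp only [mul_assoc]
    _ = b * (a * a) * b := by rw [hb]; simp only [mul_assoc, one_mul]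
    _ = 1 := by rw [ha, mul_one, hb]

end

variable {L G ι κ : Type} [DecidableEq L] [Group G] {N : Set L} {t : L → ι}

/-- The pairs of different labels. -/
abbrev Pr (N : Set L) : Type := {p : L × L // p.1 ∈ N ∧ p.2 ∈ N ∧ p.1 ≠ p.2}

/-- The entries of the Coxeter matrix. -/
def cm (p q : L × L) : ℕ :=
  if p = q then 1
  else if (p.2 = q.1 ∧ p.1 ≠ q.2) ∨ (q.2 = p.1 ∧ q.1 ≠ p.2) then 3
  else if p.1 ≠ q.1 ∧ p.1 ≠ q.2 ∧ p.2 ≠ q.1 ∧ p.2 ≠ q.2 then 2
  else 0

theorem cm_symm (p q : L × L) : cm p q = cm q p := by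
  unfold cm
  have e1 : (p = q) = (q = p) := propext eq_comm
  have e2 : ((p.2 = q.1 ∧ p.1 ≠ q.2) ∨ (q.2 = p.1 ∧ q.1 ≠ p.2)) =
      ((q.2 = p.1 ∧ q.1 ≠ p.2) ∨ (p.2 = q.1 ∧ p.1 ≠ q.2)) := propext or_comm
  have e3 : (p.1 ≠ q.1 ∧ p.1 ≠ q.2 ∧ p.2 ≠ q.1 ∧ p.2 ≠ q.2) =
      (q.1 ≠ p.1 ∧ q.1 ≠ p.2 ∧ q.2 ≠ p.1 ∧ q.2 ≠ p.2) := propext
    ⟨fun h => ⟨h.1.symm, h.2.2.1.symm, h.2.1.symm, h.2.2.2.symm⟩,
      fun h => ⟨h.1.symm, h.2.2.1.symm, h.2.1.symm, h.2.2.2.symm⟩⟩
  simp only [e1, e2, e3]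

/-- The Coxeter matrix. -/
def CM (N : Set L) : CoxeterMatrix (Pr N) where
  M := Matrix.of fun p q => cm p.1 q.1
  isSymm := by
    ext p q
    exact cm_symm _ _
  diagonal p := if_pos rfl
  off_diagonal p q h := by
    have h' : p.1 ≠ q.1 := fun h2 => h (Subtype.ext h2)
    change cm p.1 q.1 ≠ 1
    unfold cm
    rw [if_neg h']
    split_ifs <;> norm_num

/-- The Coxeter group. -/
abbrev Cox (N : Set L) : Type := (CM N).Group

open Classical in
/-- The reflections. -/
noncomputable def dd (N : Set L) (i j : L) : Cox N :=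
  if h : i ∈ N ∧ j ∈ N ∧ i ≠ j then (CM N).toCoxeterSystem.simple ⟨(i, j), h⟩ else 1

theorem dd_pos {i j : L} (h : i ∈ N ∧ j ∈ N ∧ i ≠ j) :
    dd N i j = (CM N).toCoxeterSystem.simple ⟨(i, j), h⟩ := dif_pos h

theorem dd_neg {i j : L} (h : ¬ (i ∈ N ∧ j ∈ N ∧ i ≠ j)) : dd N i j = 1 := dif_neg h

theorem dd_sq (i j : L) : dd N i j * dd N i j = 1 := by
  unfold dd
  split_ifs with h
  · exact (CM N).toCoxeterSystem.simple_mul_simple_self _
  · exact mul_one _

theorem dd_pow {p q : L × L} (hp : p.1 ∈ N ∧ p.2 ∈ N ∧ p.1 ≠ p.2)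
    (hq : q.1 ∈ N ∧ q.2 ∈ N ∧ q.1 ≠ q.2) : (dd N p.1 p.2 * dd N q.1 q.2) ^ cm p q = 1 := by
  rw [dd_pos hp, dd_pos hq]
  exact (CM N).toCoxeterSystem.simple_mul_simple_pow ⟨p, hp⟩ ⟨q, hq⟩

theorem cm_two {i j k l : L} (h3 : i ≠ k) (h4 : i ≠ l) (h5 : j ≠ k) (h6 : j ≠ l) :
    cm (i, j) (k, l) = 2 := by
  unfold cm
  rw [if_neg (fun h => h3 (congrArg Prod.fst h)), if_neg, if_pos ⟨h3, h4, h5, h6⟩]
  rintro (⟨h, -⟩ | ⟨h, -⟩)
  · exact h5 h
  · exact h4 h.symm

theorem cm_three {i j k : L} (h1 : i ≠ j) (h2 : i ≠ k) : cm (i, j) (j, k) = 3 := by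
  unfold cm
  rw [if_neg (fun h => h1 (congrArg Prod.fst h)), if_pos (Or.inl ⟨rfl, h2⟩)]

theorem dd_comm {i j k l : L} (hi : i ∈ N) (hj : j ∈ N) (hk : k ∈ N) (hl : l ∈ N) (h1 : i ≠ j)
    (h2 : k ≠ l) (h3 : i ≠ k) (h4 : i ≠ l) (h5 : j ≠ k) (h6 : j ≠ l) :
    dd N i j * dd N k l = dd N k l * dd N i j := by
  refine comm_of_sq (dd_sq _ _) (dd_sq _ _) ?_
  have h := dd_pow (N := N) (p := (i, j)) (q := (k, l)) ⟨hi, hj, h1⟩ ⟨hk, hl, h2⟩
  rwa [cm_two h3 h4 h5 h6] at h

theorem dd_braid {i j k : L} (hi : i ∈ N) (hj : j ∈ N) (hk : k ∈ N) (h1 : i ≠ j)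
    (h2 : i ≠ k) (h3 : j ≠ k) :
    dd N i j * dd N j k * dd N i j = dd N j k * dd N i j * dd N j k := by
  refine braid_of_cube (dd_sq _ _) (dd_sq _ _) ?_
  have h := dd_pow (N := N) (p := (i, j)) (q := (j, k)) ⟨hi, hj, h1⟩ ⟨hj, hk, h3⟩
  rwa [cm_three h1 h2] at h

/-- The universal property of the Coxeter group. -/
theorem liftable {f : L → L → G} (h0 : ∀ i ∈ N, ∀ j ∈ N, i ≠ j → f i j * f i j = 1)
    (h2 : ∀ i ∈ N, ∀ j ∈ N, ∀ k ∈ N, ∀ l ∈ N, i ≠ j → k ≠ l → i ≠ k → i ≠ l → j ≠ k → j ≠ l →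
      f i j * f k l = f k l * f i j)
    (h3 : ∀ i ∈ N, ∀ j ∈ N, ∀ k ∈ N, i ≠ j → i ≠ k → j ≠ k →
      f i j * f j k * f i j = f j k * f i j * f j k) :
    (CM N).IsLiftable (fun p : Pr N => f p.1.1 p.1.2) := by
  have key : ∀ i ∈ N, ∀ j ∈ N, ∀ k ∈ N, i ≠ j → i ≠ k → j ≠ k →
      (f i j * f j k) ^ 3 = 1 ∧ (f j k * f i j) ^ 3 = 1 := by
    intro i hi j hj k hk e1 e2 e3
    have h4 := h3 i hi j hj k hk e1 e2 e3
    exact ⟨cube_of_braid (h0 i hi j hj e1) (h0 j hj k hk e3) h4,
      cube_of_braid (h0 j hj k hk e3) (h0 i hi j hj e1) h4.symm⟩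
  rintro ⟨⟨i, j⟩, hi, hj, hij⟩ ⟨⟨k, l⟩, hk, hl, hkl⟩
  change (f i j * f k l) ^ cm (i, j) (k, l) = 1
  simp only at hi hj hij hk hl hkl
  unfold cm
  split_ifs with e1 e2 e3
  · obtain ⟨rfl, rfl⟩ := Prod.mk.inj e1
    rw [pow_one]
    exact h0 i hi j hj hij
  · rcases e2 with ⟨e2, e3⟩ | ⟨e2, e3⟩
    · simp only at e2 e3
      subst e2
      exact (key i hi j hj l hl hij e3 hkl).1
    · simp only at e2 e3
      subst e2
      exact (key k hk l hl j hj hkl e3 hij).2
  · exact sq_of_comm (h0 i hi j hj hij) (h0 k hk l hl hkl)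
      (h2 i hi j hj k hk l hl hij hkl e3.1 e3.2.1 e3.2.2.1 e3.2.2.2)
  · exact pow_zero _

theorem cox_hom_ext {f g : Cox N →* G}
    (h : ∀ i ∈ N, ∀ j ∈ N, i ≠ j → f (dd N i j) = g (dd N i j)) : f = g := by
  refine (CM N).toCoxeterSystem.ext_simple ?_
  rintro ⟨⟨i, j⟩, hp⟩
  have := h i hp.1 j hp.2.1 hp.2.2
  rwa [dd_pos hp] at this

/-! ### The action -/

theorem act_liftable (s : SN N t) :
    (CM N).IsLiftable (fun p : Pr N => dd N ((s : Equiv.Perm L) p.1.1) ((s : Equiv.Perm L) p.1.2)) := by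
  have hn : ∀ {a b : L}, a ≠ b → (s : Equiv.Perm L) a ≠ (s : Equiv.Perm L) b :=
    fun h h' => h ((s : Equiv.Perm L).injective h')
  refine liftable (f := fun i j => dd N ((s : Equiv.Perm L) i) ((s : Equiv.Perm L) j)) ?_ ?_ ?_
  · intro i _ j _ _
    exact dd_sq _ _
  · intro i hi j hj k hk l hl h1 h2 h3 h4 h5 h6
    exact dd_comm (SN_mem s hi) (SN_mem s hj) (SN_mem s hk) (SN_mem s hl) (hn h1) (hn h2) (hn h3)
      (hn h4) (hn h5) (hn h6)
  · intro i hi j hj k hk h1 h2 h3
    exact dd_braid (SN_mem s hi) (SN_mem s hj) (SN_mem s hk) (hn h1) (hn h2) (hn h3)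

/-- The action of a permutation of the labels. -/
noncomputable def actC (s : SN N t) : Cox N →* Cox N :=
  (CM N).toCoxeterSystem.lift ⟨_, act_liftable s⟩

theorem actC_dd' (s : SN N t) {i j : L} (h : i ∈ N ∧ j ∈ N ∧ i ≠ j) : actC s (dd N i j) =
    dd N ((s : Equiv.Perm L) i) ((s : Equiv.Perm L) j) := by
  rw [dd_pos h, actC, CoxeterSystem.lift_apply_simple]

theorem actC_dd (s : SN N t) (i j : L) : actC s (dd N i j) =
    dd N ((s : Equiv.Perm L) i) ((s : Equiv.Perm L) j) := by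
  by_cases h : i ∈ N ∧ j ∈ N ∧ i ≠ j
  · exact actC_dd' s h
  · have h' : ¬ ((s : Equiv.Perm L) i ∈ N ∧ (s : Equiv.Perm L) j ∈ N ∧
        (s : Equiv.Perm L) i ≠ (s : Equiv.Perm L) j) := by
      rintro ⟨h1, h2, h3⟩
      refine h ⟨?_, ?_, fun h4 => h3 (by rw [h4])⟩
      · by_contra h4
        rw [s.2.1 i h4] at h1
        exact h4 h1
      · by_contra h4
        rw [s.2.1 j h4] at h2
        exact h4 h2
    rw [dd_neg h, dd_neg h', map_one]

theorem actC_one : actC (1 : SN N t) = MonoidHom.id _ :=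
  cox_hom_ext fun i _ j _ _ => by rw [actC_dd]; rfl

theorem actC_mul (s s' : SN N t) : actC (s * s') = (actC s).comp (actC s') :=
  cox_hom_ext fun i _ j _ _ => by
    rw [actC_dd, MonoidHom.comp_apply, actC_dd, actC_dd]
    rfl

/-- The action. -/
noncomputable def phC (N : Set L) (t : L → ι) : SN N t →* MulAut (Cox N) :=
  MonoidHom.mk' (fun s => MonoidHom.toMulEquiv (actC s) (actC s⁻¹)
    (by rw [← actC_mul, inv_mul_cancel, actC_one]) (by rw [← actC_mul, mul_inv_cancel, actC_one]))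
    (fun s s' => by
      refine MulEquiv.ext fun g => ?_
      change actC (s * s') g = actC s (actC s' g)
      rw [actC_mul]
      rfl)

theorem phC_dd (s : SN N t) (i j : L) : phC N t s (dd N i j) =
    dd N ((s : Equiv.Perm L) i) ((s : Equiv.Perm L) j) := actC_dd s i j

/-- All permutations of `N`. -/
abbrev S1 (N : Set L) : Type := SN N (fun _ : L => ())

/-- The Coxeter group with the permutations. -/
abbrev K (N : Set L) : Type := Cox N ⋊[phC N (fun _ : L => ())] S1 N

/-- The images of the generators. -/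
noncomputable def aa (N : Set L) (i j : L) : K N := ⟨dd N i j, sw N (fun _ : L => ()) i j⟩

theorem coe_sw1 {i j : L} (hi : i ∈ N) (hj : j ∈ N) :
    (sw N (fun _ : L => ()) i j : Equiv.Perm L) = Equiv.swap i j := coe_sw hi hj rfl

/-- The rule for products. -/
theorem phC_sw {i j k l : L} (hi : i ∈ N) (hj : j ∈ N) :
    phC N (fun _ : L => ()) (sw N (fun _ : L => ()) i j) (dd N k l) =
      dd N (Equiv.swap i j k) (Equiv.swap i j l) := by
  rw [phC_dd, coe_sw1 hi hj]

theorem sw_mul_comm {i j k l : L} (hi : i ∈ N) (hj : j ∈ N) (hk : k ∈ N) (hl : l ∈ N)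
    (h : Equiv.swap i j * Equiv.swap k l = Equiv.swap k l * Equiv.swap i j) :
    sw N (fun _ : L => ()) i j * sw N (fun _ : L => ()) k l =
      sw N (fun _ : L => ()) k l * sw N (fun _ : L => ()) i j := by
  refine Subtype.ext ?_
  rw [Subgroup.coe_mul, Subgroup.coe_mul, coe_sw1 hi hj, coe_sw1 hk hl, h]

theorem swap3 {i j k : L} (h2 : i ≠ k) (h3 : j ≠ k) :
    Equiv.swap i j * Equiv.swap i k * Equiv.swap j k =
      Equiv.swap j k * Equiv.swap i k * Equiv.swap i j := by
  rw [Equiv.mul_swap_eq_swap_mul (Equiv.swap i j) i k, Equiv.swap_apply_left,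
    Equiv.swap_apply_of_ne_of_ne h2.symm h3.symm, mul_assoc,
    Equiv.mul_swap_eq_swap_mul (Equiv.swap i j) j k, Equiv.swap_apply_right,
    Equiv.swap_apply_of_ne_of_ne h2.symm h3.symm, mul_assoc]

theorem aa_tyb (N : Set L) : TYB N (id : L → L) (aa N) := by
  constructor
  · constructor
    · intro i hi j hj hij
      refine SemidirectProduct.ext ?_ ?_
      · change dd N i j * phC N _ (sw N _ i j) (dd N j i) = 1
        rw [phC_sw hi hj, Equiv.swap_apply_left, Equiv.swap_apply_right]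
        exact dd_sq _ _
      · change sw N _ i j * sw N _ j i = 1
        refine Subtype.ext ?_
        rw [Subgroup.coe_mul, coe_sw1 hi hj, coe_sw1 hj hi, Equiv.swap_comm j i,
          Equiv.swap_mul_self]
        rfl
    · intro i hi j hj k hk l hl h1 h2 h3 h4 h5 h6
      refine SemidirectProduct.ext ?_ ?_
      · change dd N i j * phC N _ (sw N _ i j) (dd N k l) =
          dd N k l * phC N _ (sw N _ k l) (dd N i j)
        rw [phC_sw hi hj, phC_sw hk hl, Equiv.swap_apply_of_ne_of_ne h3.symm h5.symm,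
          Equiv.swap_apply_of_ne_of_ne h4.symm h6.symm, Equiv.swap_apply_of_ne_of_ne h3 h4,
          Equiv.swap_apply_of_ne_of_ne h5 h6, dd_comm hi hj hk hl h1 h2 h3 h4 h5 h6]
      · change sw N _ i j * sw N _ k l = sw N _ k l * sw N _ i j
        refine sw_mul_comm hi hj hk hl ?_
        rw [Equiv.mul_swap_eq_swap_mul (Equiv.swap i j) k l,
          Equiv.swap_apply_of_ne_of_ne h3.symm h5.symm,
          Equiv.swap_apply_of_ne_of_ne h4.symm h6.symm]
    · intro i hi j hj k hk h1 h2 h3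
      refine SemidirectProduct.ext ?_ ?_
      · change dd N i j * phC N _ (sw N _ i j) (dd N i k) *
            phC N _ (sw N _ i j * sw N _ i k) (dd N j k) =
          dd N j k * phC N _ (sw N _ j k) (dd N i k) *
            phC N _ (sw N _ j k * sw N _ i k) (dd N i j)
        rw [map_mul, map_mul, MulAut.mul_apply, MulAut.mul_apply, phC_sw hi hj, phC_sw hi hk,
          phC_sw hi hj, phC_sw hj hk, phC_sw hi hk, phC_sw hj hk]
        simp only [Equiv.swap_apply_left, Equiv.swap_apply_right,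
          Equiv.swap_apply_of_ne_of_ne h2.symm h3.symm, Equiv.swap_apply_of_ne_of_ne h1.symm h3,
          Equiv.swap_apply_of_ne_of_ne h1 h2]
        exact dd_braid hi hj hk h1 h2 h3
      · change sw N _ i j * sw N _ i k * sw N _ j k = sw N _ j k * sw N _ i k * sw N _ i j
        refine Subtype.ext ?_
        rw [Subgroup.coe_mul, Subgroup.coe_mul, Subgroup.coe_mul, Subgroup.coe_mul,
          coe_sw1 hi hj, coe_sw1 hi hk, coe_sw1 hj hk, swap3 h2 h3]
  · intro i _ j _ h1 h2
    exact absurd h2 h1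
  · intro i _ j _ k _ h1 _ _ h4
    exact absurd h4 h1

/-- The group without types, with all permutations. -/
abbrev T1 (N : Set L) : Type := T N (fun _ : L => ())

/-- The images of the reflections. -/
noncomputable def bb (N : Set L) (i j : L) : T1 N := ⟨xg N id i j, sw N (fun _ : L => ()) i j⟩

theorem phP_sw {i j k l : L} (hi : i ∈ N) (hj : j ∈ N) :
    phP N (fun _ : L => ()) (sw N (fun _ : L => ()) i j) (xg N id k l) =
      xg N id (Equiv.swap i j k) (Equiv.swap i j l) := by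
  rw [phP_xg, coe_sw1 hi hj]

theorem bb_liftable (N : Set L) : (CM N).IsLiftable (fun p : Pr N => bb N p.1.1 p.1.2) := by
  have H := xg_tyb N (id : L → L)
  refine liftable ?_ ?_ ?_
  · intro i hi j hj hij
    refine SemidirectProduct.ext ?_ ?_
    · change xg N id i j * phP N _ (sw N _ i j) (xg N id i j) = 1
      rw [phP_sw hi hj, Equiv.swap_apply_left, Equiv.swap_apply_right]
      exact H.inv i hi j hj hij
    · change sw N _ i j * sw N _ i j = 1
      refine Subtype.ext ?_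
      rw [Subgroup.coe_mul, coe_sw1 hi hj, Equiv.swap_mul_self]
      rfl
  · intro i hi j hj k hk l hl h1 h2 h3 h4 h5 h6
    refine SemidirectProduct.ext ?_ ?_
    · change xg N id i j * phP N _ (sw N _ i j) (xg N id k l) =
        xg N id k l * phP N _ (sw N _ k l) (xg N id i j)
      rw [phP_sw hi hj, phP_sw hk hl, Equiv.swap_apply_of_ne_of_ne h3.symm h5.symm,
        Equiv.swap_apply_of_ne_of_ne h4.symm h6.symm, Equiv.swap_apply_of_ne_of_ne h3 h4,
        Equiv.swap_apply_of_ne_of_ne h5 h6, H.comm i hi j hj k hk l hl h1 h2 h3 h4 h5 h6]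
    · change sw N _ i j * sw N _ k l = sw N _ k l * sw N _ i j
      refine sw_mul_comm hi hj hk hl ?_
      rw [Equiv.mul_swap_eq_swap_mul (Equiv.swap i j) k l,
        Equiv.swap_apply_of_ne_of_ne h3.symm h5.symm,
        Equiv.swap_apply_of_ne_of_ne h4.symm h6.symm]
  · intro i hi j hj k hk h1 h2 h3
    refine SemidirectProduct.ext ?_ ?_
    · change xg N id i j * phP N _ (sw N _ i j) (xg N id j k) *
          phP N _ (sw N _ i j * sw N _ j k) (xg N id i j) =
        xg N id j k * phP N _ (sw N _ j k) (xg N id i j) *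
          phP N _ (sw N _ j k * sw N _ i j) (xg N id j k)
      rw [map_mul, map_mul, MulAut.mul_apply, MulAut.mul_apply, phP_sw hi hj, phP_sw hj hk,
        phP_sw hi hj, phP_sw hj hk]
      simp only [Equiv.swap_apply_left, Equiv.swap_apply_right,
        Equiv.swap_apply_of_ne_of_ne h2.symm h3.symm, Equiv.swap_apply_of_ne_of_ne h1 h2]
      exact H.yb i hi j hj k hk h1 h2 h3
    · change sw N _ i j * sw N _ j k * sw N _ i j = sw N _ j k * sw N _ i j * sw N _ j k
      refine Subtype.ext ?_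
      rw [Subgroup.coe_mul, Subgroup.coe_mul, Subgroup.coe_mul, Subgroup.coe_mul,
        coe_sw1 hi hj, coe_sw1 hj hk]
      rw [Equiv.mul_swap_eq_swap_mul (Equiv.swap i j) j k, Equiv.swap_apply_right,
        Equiv.swap_apply_of_ne_of_ne h2.symm h3.symm, mul_assoc, Equiv.swap_mul_self, mul_one,
        Equiv.mul_swap_eq_swap_mul (Equiv.swap j k) i j, Equiv.swap_apply_left,
        Equiv.swap_apply_of_ne_of_ne h1 h2, mul_assoc, Equiv.swap_mul_self, mul_one]

/-- From the Coxeter group with the permutations to the group without types. -/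
noncomputable def BB (N : Set L) : K N →* T1 N :=
  SemidirectProduct.lift ((CM N).toCoxeterSystem.lift ⟨_, bb_liftable N⟩) SemidirectProduct.inr
    (fun s => by
      refine cox_hom_ext fun i hi j hj hij => ?_
      have hn : (s : Equiv.Perm L) i ≠ (s : Equiv.Perm L) j :=
        fun h' => hij ((s : Equiv.Perm L).injective h')
      change (CM N).toCoxeterSystem.lift ⟨_, bb_liftable N⟩ (phC N _ s (dd N i j)) =
        SemidirectProduct.inr s * (CM N).toCoxeterSystem.lift ⟨_, bb_liftable N⟩ (dd N i j) *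
          (SemidirectProduct.inr s)⁻¹
      rw [phC_dd, dd_pos ⟨hi, hj, hij⟩, dd_pos ⟨SN_mem s hi, SN_mem s hj, hn⟩,
        CoxeterSystem.lift_apply_simple, CoxeterSystem.lift_apply_simple]
      change bb N ((s : Equiv.Perm L) i) ((s : Equiv.Perm L) j) = SemidirectProduct.inr s *
        bb N i j * (SemidirectProduct.inr s)⁻¹
      rw [eq_mul_inv_iff_mul_eq]
      refine SemidirectProduct.ext ?_ ?_
      · change xg N id ((s : Equiv.Perm L) i) ((s : Equiv.Perm L) j) * phP N _ _ 1 =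
          1 * phP N _ s (xg N id i j)
        rw [map_one, mul_one, one_mul, phP_xg]
      · change sw N _ ((s : Equiv.Perm L) i) ((s : Equiv.Perm L) j) * s = s * sw N _ i j
        refine Subtype.ext ?_
        rw [Subgroup.coe_mul, Subgroup.coe_mul, coe_sw1 (SN_mem s hi) (SN_mem s hj), coe_sw1 hi hj,
          Equiv.mul_swap_eq_swap_mul])

theorem lift_aa_injective (N : Set L) : Function.Injective (lift (aa N) (aa_tyb N)) := by
  have key : (BB N).comp (lift (aa N) (aa_tyb N)) =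
      (SemidirectProduct.inl : P N (id : L → L) →* T1 N) := by
    refine hom_ext fun i hi j hj hij => ?_
    rw [MonoidHom.comp_apply, lift_xg _ hi hj hij]
    have h1 : aa N i j = SemidirectProduct.inl (dd N i j) *
        SemidirectProduct.inr (sw N (fun _ : L => ()) i j) :=
      SemidirectProduct.mk_eq_inl_mul_inr _ _
    rw [h1, map_mul, BB, SemidirectProduct.lift_inl, SemidirectProduct.lift_inr,
      dd_pos ⟨hi, hj, hij⟩, CoxeterSystem.lift_apply_simple]
    refine SemidirectProduct.ext ?_ ?_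
    · change xg N id i j * phP N _ _ 1 = xg N id i j
      rw [map_one, mul_one]
    · change sw N _ i j * sw N _ i j = 1
      refine Subtype.ext ?_
      rw [Subgroup.coe_mul, coe_sw1 hi hj, Equiv.swap_mul_self]
      rfl
  intro a b hab
  have := congrArg (BB N) hab
  rw [← MonoidHom.comp_apply, ← MonoidHom.comp_apply, key] at this
  exact SemidirectProduct.inl_injective this

/-! ### The theorem -/

variable {C : ∀ (G : Type) [Group G], Prop}

/-- Semidirect products with finite groups. -/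
theorem mem_semi (hC : ClosedClass C) {A B : Type} [Group A] [Group B] [Finite B]
    (f : B →* MulAut A) (h : C A) : C (A ⋊[f] B) := by
  refine hC.finiteIndex _ (SemidirectProduct.rightHom (φ := f)).ker inferInstance ?_
  refine hC.iso A _ ?_ h
  rw [← SemidirectProduct.range_inl_eq_ker_rightHom]
  exact MonoidHom.ofInjective SemidirectProduct.inl_injective

/-- Row Pres: the groups `P N t`, `N` finite, are in the class. -/
theorem P_mem (hC : ClosedClass C) (hGL : ∀ n, C (Matrix.GeneralLinearGroup (Fin n) ℤ))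
    {N : Set L} (hN : N.Finite) (t : L → ι) : C (P N t) := by
  have f1 : Finite (Pr N) := by
    have := (hN.prod hN).to_subtype
    refine Finite.of_injective (β := ↥(N ×ˢ N)) (fun p : Pr N => ⟨p.1, p.2.1, p.2.2.1⟩) ?_
    intro p q h
    have h' : p.1 = q.1 := congrArg (fun z : ↥(N ×ˢ N) => (z : L × L)) h
    exact Subtype.ext h'
  have f2 : Finite (S1 N) := SN_finite hN
  have f3 : Finite (SN N t) := SN_finite hN
  have c1 : C (Cox N) := Pool.Agent.AIR.coxeter_mem (CM N) hC hGL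
  have c2 : C (K N) := mem_semi hC _ c1
  have c3 : C (P N (id : L → L)) :=
    Pool.Agent.Helper54.LA.mem_of_injective hC (lift (aa N) (aa_tyb N)) (lift_aa_injective N) c2
  have c4 : C (T N t) := mem_semi hC _ c3
  exact Pool.Agent.Helper54.LA.mem_of_injective hC (lift (xh N t) (xh_tyb N t)) (lift_xh_injective hN) c4

end

end Pool.Agent.IET
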