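import Mathlib

/-!
# Yang-Baxter systems

`x i j` (`i ≠ j` in `N`): `x i j * x j i = 1`, disjoint ones commute, and
`x i j * x i k * x j k = x j k * x i k * x i j`. `X x V W` is the product along a gallery from the
order `V` to the order `W`.
-/

set_option autoImplicit false

namespace Pool.Agent.IET

variable {L G H ι : Type} [DecidableEq L] [Group G] [Group H]

/-- Yang-Baxter system. -/
structure YB (N : Set L) (x : L → L → G) : Prop where
  inv : ∀ i ∈ N, ∀ j ∈ N, i ≠ j → x i j * x j i = 1
  comm : ∀ i ∈ N, ∀ j ∈ N, ∀ k ∈ N, ∀ l ∈ N, i ≠ j → k ≠ l → i ≠ k → i ≠ l → j ≠ k → j ≠ l →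
    x i j * x k l = x k l * x i j
  yb : ∀ i ∈ N, ∀ j ∈ N, ∀ k ∈ N, i ≠ j → i ≠ k → j ≠ k →
    x i j * x i k * x j k = x j k * x i k * x i j

/-- Yang-Baxter system with types: `x i j` is the transposition if `i`, `j` have the same type. -/
structure TYB (N : Set L) (t : L → ι) (x : L → L → G) : Prop extends YB N x where
  sym : ∀ i ∈ N, ∀ j ∈ N, i ≠ j → t i = t j → x i j = x j i
  conj : ∀ i ∈ N, ∀ j ∈ N, ∀ k ∈ N, i ≠ j → i ≠ k → j ≠ k → t i = t j →
    x i j * x i k = x j k * x i j

/-- `a` passes the elements of `l`. -/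
def pass (x : L → L → G) (a : L) (l : List L) : G := (l.map (x a)).prod

/-- The product along a gallery from `V` to `W`. -/
def X (x : L → L → G) : List L → List L → G
  | [], _ => 1
  | a :: V, W => X x V (W.erase a) * pass x a (W.takeWhile (fun c => c ≠ a))

omit [DecidableEq L] in
theorem pass_nil (x : L → L → G) (a : L) : pass x a [] = 1 := rfl

omit [DecidableEq L] in
theorem pass_cons (x : L → L → G) (a b : L) (l : List L) :
    pass x a (b :: l) = x a b * pass x a l := by simp [pass]

omit [DecidableEq L] in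
theorem pass_append (x : L → L → G) (a : L) (l m : List L) :
    pass x a (l ++ m) = pass x a l * pass x a m := by simp [pass]

theorem X_nil (x : L → L → G) (W : List L) : X x [] W = 1 := rfl

omit [DecidableEq L] in
theorem map_pass (f : G →* H) (x : L → L → G) (a : L) (l : List L) :
    f (pass x a l) = pass (fun i j => f (x i j)) a l := by
  rw [pass, pass, map_list_prod, List.map_map]
  rfl

theorem map_X (f : G →* H) (x : L → L → G) (V W : List L) :
    f (X x V W) = X (fun i j => f (x i j)) V W := by
  induction V generalizing W with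
  | nil => simp [X]
  | cons a V ih => rw [X, X, map_mul, ih, map_pass]

theorem takeWhile_app {a : L} {A : List L} (B : List L) (ha : a ∉ A) :
    (A ++ a :: B).takeWhile (fun c => decide (c ≠ a)) = A := by
  induction A with
  | nil => simp
  | cons b A ih =>
    have hb : b ≠ a := fun h => ha (by simp [h])
    have hA : a ∉ A := fun h => ha (by simp [h])
    rw [List.cons_append, List.takeWhile_cons, ih hA]
    simp [hb]

theorem X_cons (x : L → L → G) {a : L} (V : List L) {A : List L} (B : List L) (ha : a ∉ A) :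
    X x (a :: V) (A ++ a :: B) = X x V (A ++ B) * pass x a A := by
  rw [X, takeWhile_app B ha, List.erase_append_right _ ha, List.erase_cons_head]

theorem X_cons_self (x : L → L → G) (a : L) (V W : List L) :
    X x (a :: V) (a :: W) = X x V W := by
  have := X_cons x (a := a) V (A := []) W (by simp)
  simpa [pass_nil] using this

theorem X_self (x : L → L → G) {V : List L} (hV : V.Nodup) : X x V V = 1 := by
  induction V with
  | nil => rfl
  | cons a V ih => rw [X_cons_self, ih (List.nodup_cons.1 hV).2]

theorem X_pair (x : L → L → G) {i j : L} (h : i ≠ j) : X x [i, j] [j, i] = x i j := by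
  have := X_cons x (a := i) [j] (A := [j]) [] (by simpa using h)
  simp only [List.cons_append, List.nil_append, List.append_nil, pass_cons, pass_nil,
    mul_one] at this
  rw [this, X_self x (by simp), one_mul]

omit [DecidableEq L] in
/-- Every rearrangement is reached by exchanges of neighbours. -/
theorem gallery {p : List L → Prop} {V : List L} (h0 : p V)
    (hs : ∀ A i j B, V.Perm (A ++ i :: j :: B) → p (A ++ i :: j :: B) → p (A ++ j :: i :: B))
    {W : List L} (h : V.Perm W) : p W := by
  have key : ∀ l1 l2 : List L, l1.Perm l2 → ∀ A, V.Perm (A ++ l1) → p (A ++ l1) →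
      p (A ++ l2) := by
    intro l1 l2 hl
    induction hl with
    | nil => exact fun A _ hp => hp
    | cons a _ ih =>
      intro A hV hp
      have := ih (A ++ [a]) (by simpa using hV) (by simpa using hp)
      simpa using this
    | swap i j l => exact fun A hV hp => hs A j i l hV hp
    | trans h1 h2 ih1 ih2 =>
      intro A hV hp
      exact ih2 A (hV.trans (List.Perm.append_left A h1)) (ih1 A hV hp)
  simpa using key V W h [] (by simp) (by simpa using h0)

variable {N : Set L} {t : L → ι} {x : L → L → G}

omit [DecidableEq L] in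
theorem YB.inv_eq (h : YB N x) {i j : L} (hi : i ∈ N) (hj : j ∈ N) (hij : i ≠ j) :
    (x i j)⁻¹ = x j i := inv_eq_of_mul_eq_one_right (h.inv i hi j hj hij)

omit [DecidableEq L] in
theorem YB.comm_pass (h : YB N x) {i j a : L} {l : List L} (hi : i ∈ N) (hj : j ∈ N) (ha : a ∈ N)
    (hl : ∀ c ∈ l, c ∈ N) (hij : i ≠ j) (hai : a ≠ i) (haj : a ≠ j) (hli : i ∉ l) (hlj : j ∉ l)
    (hla : a ∉ l) : x i j * pass x a l = pass x a l * x i j := by
  induction l with
  | nil => simp [pass]
  | cons b l ih =>
    simp only [List.mem_cons, not_or] at hli hlj hla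
    rw [pass_cons, ← mul_assoc, h.comm i hi j hj a ha b (hl b (by simp)) hij hla.1 hai.symm hli.1
      haj.symm hlj.1, mul_assoc, ih (fun c hc => hl c (by simp [hc])) hli.2 hlj.2 hla.2, mul_assoc]

/-- (X1) One exchange of neighbours. -/
theorem X_step_aux (h : YB N x) : ∀ V : List L, V.Nodup → (∀ v ∈ V, v ∈ N) → ∀ A i j B,
    V.Perm (A ++ i :: j :: B) → X x V (A ++ j :: i :: B) = X x V (A ++ i :: j :: B) * x i j := by
  intro V
  induction V with
  | nil =>
    intro _ _ A i j B hp
    have := hp.length_eq
    simp at this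
  | cons a V ih =>
    intro hnd hN A i j B hp
    have hnd2 : (A ++ i :: j :: B).Nodup := hp.nodup_iff.1 hnd
    have hN2 : ∀ c ∈ A ++ i :: j :: B, c ∈ N := fun c hc => hN c (hp.mem_iff.2 hc)
    have hiA : i ∉ A := fun hi => by
      have := List.disjoint_of_nodup_append hnd2 hi
      simp at this
    have hjA : j ∉ A := fun hi => by
      have := List.disjoint_of_nodup_append hnd2 hi
      simp at this
    have hnd3 : (i :: j :: B).Nodup := (List.nodup_append.1 hnd2).2.1
    have hij : i ≠ j := by
      intro hh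
      simp [hh] at hnd3
    have hiB : i ∉ B := by
      intro hh
      simp [hh] at hnd3
    have hjB : j ∉ B := by
      intro hh
      simp [hh] at hnd3
    have hiN : i ∈ N := hN2 i (by simp)
    have hjN : j ∈ N := hN2 j (by simp)
    by_cases hai : a = i
    · subst hai
      have e1 : X x (a :: V) (A ++ a :: j :: B) = X x V (A ++ j :: B) * pass x a A :=
        X_cons x V (j :: B) hiA
      have e2 : X x (a :: V) (A ++ j :: a :: B) = X x V (A ++ j :: B) * pass x a (A ++ [j]) := by
        have := X_cons x (a := a) V (A := A ++ [j]) B (by simp [hiA, hij])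
        simpa using this
      rw [e1, e2, pass_append]
      simp [pass_cons, pass_nil, mul_assoc]
    by_cases haj : a = j
    · subst haj
      have e1 : X x (a :: V) (A ++ a :: i :: B) = X x V (A ++ i :: B) * pass x a A :=
        X_cons x V (i :: B) hjA
      have e2 : X x (a :: V) (A ++ i :: a :: B) = X x V (A ++ i :: B) * pass x a (A ++ [i]) := by
        have := X_cons x (a := a) V (A := A ++ [i]) B (by simp [hjA, Ne.symm hij])
        simpa using this
      rw [e1, e2, pass_append]
      simp only [pass_cons, pass_nil, mul_one, mul_assoc]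
      rw [h.inv _ hjN _ hiN (Ne.symm hij)]
      simp
    have haN : a ∈ N := hN a (by simp)
    have hnd' : V.Nodup := (List.nodup_cons.1 hnd).2
    have hN' : ∀ v ∈ V, v ∈ N := fun v hv => hN v (by simp [hv])
    have haW : a ∈ A ++ i :: j :: B := hp.mem_iff.1 (by simp)
    by_cases haA : a ∈ A
    · obtain ⟨A1, A2, rfl⟩ := List.append_of_mem haA
      have ha1 : a ∉ A1 := fun hh => by
        have h4 : (A1 ++ a :: (A2 ++ i :: j :: B)).Nodup := by simpa using hnd2
        have := List.disjoint_of_nodup_append h4 hh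
        simp at this
      have e1 : X x (a :: V) ((A1 ++ a :: A2) ++ i :: j :: B) =
          X x V ((A1 ++ A2) ++ i :: j :: B) * pass x a A1 := by
        have := X_cons x (a := a) V (A := A1) (A2 ++ i :: j :: B) ha1
        simpa using this
      have e2 : X x (a :: V) ((A1 ++ a :: A2) ++ j :: i :: B) =
          X x V ((A1 ++ A2) ++ j :: i :: B) * pass x a A1 := by
        have := X_cons x (a := a) V (A := A1) (A2 ++ j :: i :: B) ha1
        simpa using this
      have hp' : V.Perm ((A1 ++ A2) ++ i :: j :: B) := by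
        have h5 : (a :: V).Perm (a :: ((A1 ++ A2) ++ i :: j :: B)) := by
          refine hp.trans ?_
          have := List.perm_middle (a := a) (l₁ := A1) (l₂ := A2 ++ i :: j :: B)
          simpa using this
        exact (List.perm_cons a).1 h5
      rw [e1, e2, ih hnd' hN' (A1 ++ A2) i j B hp', mul_assoc, mul_assoc,
        h.comm_pass hiN hjN haN (fun c hc => hN2 c (by simp [hc])) hij hai haj
          (fun hh => hiA (by simp [hh])) (fun hh => hjA (by simp [hh])) ha1]
    · have haB : a ∈ B := by
        simp only [List.mem_append, List.mem_cons] at haW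
        rcases haW with h1 | h1 | h1 | h1
        · exact absurd h1 haA
        · exact absurd h1 hai
        · exact absurd h1 haj
        · exact h1
      obtain ⟨B1, B2, rfl⟩ := List.append_of_mem haB
      have ha1 : a ∉ B1 := fun hh => by
        have h4 : ((A ++ i :: j :: B1) ++ a :: B2).Nodup := by simpa using hnd2
        have := List.disjoint_of_nodup_append h4 (a := a) (by simp [hh])
        simp at this
      have e1 : X x (a :: V) (A ++ i :: j :: (B1 ++ a :: B2)) =
          X x V (A ++ i :: j :: (B1 ++ B2)) * pass x a (A ++ i :: j :: B1) := by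
        have := X_cons x (a := a) V (A := A ++ i :: j :: B1) B2 (by simp [haA, hai, haj, ha1])
        simpa using this
      have e2 : X x (a :: V) (A ++ j :: i :: (B1 ++ a :: B2)) =
          X x V (A ++ j :: i :: (B1 ++ B2)) * pass x a (A ++ j :: i :: B1) := by
        have := X_cons x (a := a) V (A := A ++ j :: i :: B1) B2 (by simp [haA, hai, haj, ha1])
        simpa using this
      have hp' : V.Perm (A ++ i :: j :: (B1 ++ B2)) := by
        have h5 : (a :: V).Perm (a :: (A ++ i :: j :: (B1 ++ B2))) := by
          refine hp.trans ?_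
          have := List.perm_middle (a := a) (l₁ := A ++ i :: j :: B1) (l₂ := B2)
          simpa using this
        exact (List.perm_cons a).1 h5
      have c1 : x i j * pass x a A = pass x a A * x i j :=
        h.comm_pass hiN hjN haN (fun c hc => hN2 c (by simp [hc])) hij hai haj hiA hjA haA
      have c2 : x i j * pass x a B1 = pass x a B1 * x i j :=
        h.comm_pass hiN hjN haN (fun c hc => hN2 c (by simp [hc])) hij hai haj
          (fun hh => hiB (by simp [hh])) (fun hh => hjB (by simp [hh])) ha1
      have c3 : x i j * (x a j * x a i) = x a i * (x a j * x i j) := by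
        rw [← mul_assoc, ← mul_assoc, h.yb _ haN _ hiN _ hjN hai haj hij]
      rw [e1, e2, ih hnd' hN' A i j (B1 ++ B2) hp']
      simp only [pass_append, pass_cons, mul_assoc]
      congr 1
      rw [← c2]
      have c4 : x i j * (x a j * (x a i * pass x a B1)) =
          x a i * (x a j * (x i j * pass x a B1)) := by
        have := congrArg (· * pass x a B1) c3
        simpa only [mul_assoc] using this
      rw [← c4, ← mul_assoc, c1, mul_assoc]

/-- (X1) -/
theorem X_step (hx : YB N x) {V A B : List L} {i j : L} (hV : V.Nodup) (hN : ∀ a ∈ V, a ∈ N)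
    (h : V.Perm (A ++ i :: j :: B)) :
    X x V (A ++ j :: i :: B) = X x V (A ++ i :: j :: B) * x i j :=
  X_step_aux hx V hV hN A i j B h

/-- (X2) -/
theorem X_mul (hx : YB N x) {U V W : List L} (hU : U.Nodup) (hN : ∀ a ∈ U, a ∈ N)
    (h : U.Perm V) (h' : V.Perm W) : X x U V * X x V W = X x U W := by
  have hndV := h.nodup_iff.1 hU
  have hNV : ∀ v ∈ V, v ∈ N := fun v hv => hN v (h.mem_iff.2 hv)
  refine gallery (p := fun W => X x U V * X x V W = X x U W) ?_ ?_ h'
  · rw [X_self x hndV, mul_one]
  · intro A i j B hp hq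
    rw [X_step hx hU hN (h.trans hp), X_step hx hndV hNV hp, ← hq, mul_assoc]

theorem X_inv (hx : YB N x) {V W : List L} (hV : V.Nodup) (hN : ∀ a ∈ V, a ∈ N)
    (h : V.Perm W) : (X x V W)⁻¹ = X x W V := by
  have := X_mul hx hV hN h h.symm
  rw [X_self x hV] at this
  exact inv_eq_of_mul_eq_one_right this

/-- (X3) -/
theorem X_ctx (hx : YB N x) {A V W B : List L} (hV : (A ++ V ++ B).Nodup)
    (hN : ∀ a ∈ A ++ V ++ B, a ∈ N) (h : V.Perm W) :
    X x (A ++ V ++ B) (A ++ W ++ B) = X x V W := by
  have hndV : V.Nodup := (List.nodup_append.1 (List.nodup_append.1 hV).1).2.1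
  have hNV : ∀ v ∈ V, v ∈ N := fun v hv => hN v (by simp [hv])
  refine gallery (p := fun W => X x (A ++ V ++ B) (A ++ W ++ B) = X x V W) ?_ ?_ h
  · rw [X_self x hV, X_self x hndV]
  · intro C i j D hp hq
    have hp2 : (A ++ V ++ B).Perm ((A ++ C) ++ i :: j :: (D ++ B)) := by
      have := List.Perm.append_right B (List.Perm.append_left A hp)
      simpa using this
    have e := X_step hx hV hN hp2
    rw [X_step hx hndV hNV hp, ← hq]
    simpa using e

theorem X_left (hx : YB N x) {A V W : List L} (hV : (A ++ V).Nodup)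
    (hN : ∀ a ∈ A ++ V, a ∈ N) (h : V.Perm W) : X x (A ++ V) (A ++ W) = X x V W := by
  have := X_ctx hx (A := A) (B := []) (V := V) (W := W) (by simpa using hV) (by simpa using hN) h
  simpa using this

theorem X_right (hx : YB N x) {V W B : List L} (hV : (V ++ B).Nodup)
    (hN : ∀ a ∈ V ++ B, a ∈ N) (h : V.Perm W) : X x (V ++ B) (W ++ B) = X x V W := by
  have := X_ctx hx (A := []) (B := B) (V := V) (W := W) (by simpa using hV) (by simpa using hN) h
  simpa using this

/-! ### Types -/

theorem map_swap_of_notMem {a b : L} {l : List L} (ha : a ∉ l) (hb : b ∉ l) :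
    l.map (Equiv.swap a b) = l := by
  induction l with
  | nil => rfl
  | cons c l ih =>
    simp only [List.mem_cons, not_or] at ha hb
    rw [List.map_cons, ih ha.2 hb.2, Equiv.swap_apply_of_ne_of_ne (Ne.symm ha.1) (Ne.symm hb.1)]

theorem map_swap_split {a b : L} {A B C : List L} (h : (A ++ a :: B ++ b :: C).Nodup) :
    (A ++ a :: B ++ b :: C).map (Equiv.swap a b) = A ++ b :: B ++ a :: C := by
  have h1 : a ∉ A ∧ b ∉ A ∧ a ∉ B ∧ b ∉ B ∧ a ∉ C ∧ b ∉ C := by
    simp only [List.append_assoc, List.cons_append, List.nodup_append, List.nodup_cons,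
      List.mem_append, List.mem_cons] at h
    refine ⟨fun hh => ?_, fun hh => ?_, fun hh => ?_, fun hh => ?_, fun hh => ?_, fun hh => ?_⟩
    · exact h.2.2 a hh a (Or.inl rfl) rfl
    · exact h.2.2 b hh b (Or.inr (Or.inr (Or.inl rfl))) rfl
    · exact h.2.1.1 (Or.inl hh)
    · exact h.2.1.2.2.2 b hh b (Or.inl rfl) rfl
    · exact h.2.1.1 (Or.inr (Or.inr hh))
    · exact h.2.1.2.2.1.1 hh
  obtain ⟨a1, b1, a2, b2, a3, b3⟩ := h1
  simp only [List.map_append, List.map_cons, map_swap_of_notMem a1 b1, map_swap_of_notMem a2 b2,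
    map_swap_of_notMem a3 b3, Equiv.swap_apply_left, Equiv.swap_apply_right]

/-- The case `a` before `b` of (T1). -/
theorem X_swap_aux (hx : TYB N t x) {A B C : List L} {a b : L}
    (hU : (A ++ a :: B ++ b :: C).Nodup) (hN : ∀ c ∈ A ++ a :: B ++ b :: C, c ∈ N)
    (ht : t a = t b) :
    X x (A ++ a :: B ++ b :: C) (A ++ b :: B ++ a :: C) = x a b := by
  have haN : a ∈ N := hN a (by simp)
  have hbN : b ∈ N := hN b (by simp)
  have hBN : ∀ c ∈ B, c ∈ N := fun c hc => hN c (by simp [hc])
  have hp : (a :: B ++ [b]).Perm (b :: B ++ [a]) := by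
    have h1 : (a :: B ++ [b]).Perm (a :: b :: B) := by
      have := (List.perm_middle (a := b) (l₁ := B) (l₂ := [])).cons a
      simpa using this
    have h2 : (b :: B ++ [a]).Perm (b :: a :: B) := by
      have := (List.perm_middle (a := a) (l₁ := B) (l₂ := [])).cons b
      simpa using this
    exact h1.trans ((List.Perm.swap b a B).trans h2.symm)
  have hU' : (A ++ (a :: B ++ [b]) ++ C).Nodup := by simpa using hU
  have hN' : ∀ c ∈ A ++ (a :: B ++ [b]) ++ C, c ∈ N := fun c hc => hN c (by simpa using hc)
  have e1 : X x (A ++ a :: B ++ b :: C) (A ++ b :: B ++ a :: C) =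
      X x (a :: B ++ [b]) (b :: B ++ [a]) := by
    have := X_ctx hx.toYB hU' hN' hp
    simpa using this
  have hnd : (a :: B ++ [b]).Nodup := (List.nodup_append.1 (List.nodup_append.1 hU').1).2.1
  have h3 : a ≠ b ∧ a ∉ B ∧ b ∉ B ∧ B.Nodup := by
    simp only [List.cons_append, List.nodup_cons, List.nodup_append, List.mem_append,
      List.mem_cons] at hnd
    refine ⟨fun hh => hnd.1 (Or.inr (Or.inl hh)), fun hh => hnd.1 (Or.inl hh), fun hh => ?_,
      hnd.2.1⟩
    exact hnd.2.2.2 b hh b (Or.inl rfl) rfl
  obtain ⟨hab, haB, hbB, hB⟩ := h3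
  have e2 : X x (a :: B ++ [b]) (b :: B ++ [a]) =
      X x (B ++ [b]) (b :: B) * pass x a (b :: B) := by
    have := X_cons x (a := a) (B ++ [b]) (A := b :: B) [] (by simp [hab, haB])
    simpa using this
  have e3 : X x (b :: B) (B ++ [b]) = pass x b B := by
    have := X_cons x (a := b) B (A := B) [] hbB
    simpa [X_self x hB] using this
  have hpB : (b :: B).Perm (B ++ [b]) := by
    have := (List.perm_middle (a := b) (l₁ := B) (l₂ := [])).symm
    simpa using this
  have e4 : X x (B ++ [b]) (b :: B) = (pass x b B)⁻¹ := by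
    rw [← e3, X_inv hx.toYB (by simp [hbB, hB]) (by
      intro c hc
      rcases List.mem_cons.1 hc with rfl | hc
      · exact hbN
      · exact hBN c hc) hpB]
  have e5 : ∀ D : List L, (∀ c ∈ D, c ∈ N) → a ∉ D → b ∉ D →
      x a b * pass x a D = pass x b D * x a b := by
    intro D
    induction D with
    | nil => intro _ _ _; simp [pass]
    | cons c D ih =>
      intro hD haD hbD
      simp only [List.mem_cons, not_or] at haD hbD
      rw [pass_cons, pass_cons, ← mul_assoc, hx.conj a haN b hbN c (hD c (by simp)) hab haD.1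
        hbD.1 ht, mul_assoc, ih (fun d hd => hD d (by simp [hd])) haD.2 hbD.2, mul_assoc]
  rw [e1, e2, e4, pass_cons, e5 B hBN haB hbB]
  simp

/-- (T1) -/
theorem X_swap (hx : TYB N t x) {U : List L} {a b : L} (hU : U.Nodup) (hN : ∀ a ∈ U, a ∈ N)
    (ha : a ∈ U) (hb : b ∈ U) (hab : a ≠ b) (ht : t a = t b) :
    X x U (U.map (Equiv.swap a b)) = x a b := by
  obtain ⟨A, B, rfl⟩ := List.append_of_mem ha
  simp only [List.mem_append, List.mem_cons] at hb
  rcases hb with hb | hb | hb
  · obtain ⟨A1, A2, rfl⟩ := List.append_of_mem hb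
    have h1 : (A1 ++ b :: A2 ++ a :: B).map (Equiv.swap a b) = A1 ++ a :: A2 ++ b :: B := by
      rw [Equiv.swap_comm]
      exact map_swap_split hU
    rw [h1, X_swap_aux hx hU hN ht.symm]
    exact hx.sym b (hN b (by simp)) a (hN a (by simp)) (Ne.symm hab) ht.symm
  · exact absurd hb.symm hab
  · obtain ⟨B1, B2, rfl⟩ := List.append_of_mem hb
    have hU' : (A ++ a :: B1 ++ b :: B2).Nodup := by simpa using hU
    have hN' : ∀ c ∈ A ++ a :: B1 ++ b :: B2, c ∈ N := fun c hc => hN c (by simpa using hc)
    have h1 := map_swap_split hU'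
    have h2 := X_swap_aux hx hU' hN' ht
    rw [← h1] at h2
    simpa using h2

theorem swap_swap_ap (a b c : L) : Equiv.swap a b (Equiv.swap a b c) = c := by
  rw [← Equiv.Perm.mul_apply, Equiv.swap_mul_self, Equiv.Perm.one_apply]

/-- (T2) -/
theorem swap_X (hx : TYB N t x) {U V : List L} {a b : L} (hU : U.Nodup) (hN : ∀ a ∈ U, a ∈ N)
    (ha : a ∈ N) (hb : b ∈ N) (hab : a ≠ b) (ht : t a = t b) (h : U.Perm V) :
    x a b * X x U V = X x (U.map (Equiv.swap a b)) (V.map (Equiv.swap a b)) * x a b := by
  set s : L → L := ⇑(Equiv.swap a b) with hs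
  have hsN : ∀ c ∈ N, s c ∈ N := by
    intro c hc
    by_cases h1 : c = a
    · rw [h1, hs, Equiv.swap_apply_left]; exact hb
    by_cases h2 : c = b
    · rw [h2, hs, Equiv.swap_apply_right]; exact ha
    rw [hs, Equiv.swap_apply_of_ne_of_ne h1 h2]; exact hc
  have hsi : Function.Injective s := (Equiv.swap a b).injective
  have one : ∀ i ∈ N, ∀ j ∈ N, i ≠ j → x a b * x i j = x (s i) (s j) * x a b := by
    intro i hi j hj hij
    have hsym := hx.sym a ha b hb hab ht
    -- the moves of the first label
    have c1 : ∀ c ∈ N, c ≠ a → c ≠ b → x a b * x a c = x b c * x a b := fun c hc h1 h2 =>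
      hx.conj a ha b hb c hc hab (Ne.symm h1) (Ne.symm h2) ht
    have c2 : ∀ c ∈ N, c ≠ a → c ≠ b → x a b * x b c = x a c * x a b := fun c hc h1 h2 => by
      rw [hsym]
      exact hx.conj b hb a ha c hc (Ne.symm hab) (Ne.symm h2) (Ne.symm h1) ht.symm
    have inv' : ∀ c ∈ N, ∀ d ∈ N, c ≠ d → x c d = (x d c)⁻¹ := fun c hc d hd hcd =>
      eq_inv_of_mul_eq_one_left (hx.inv c hc d hd hcd)
    have flip : ∀ g k : G, x a b * g = k * x a b → x a b * g⁻¹ = k⁻¹ * x a b := by
      intro g k hgk
      rw [eq_inv_mul_iff_mul_eq, ← mul_assoc, ← hgk, mul_assoc, mul_inv_cancel, mul_one]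
    by_cases h1 : i = a
    · rw [h1] at hij ⊢
      by_cases h2 : j = b
      · rw [h2, hs, Equiv.swap_apply_left, Equiv.swap_apply_right, ← hsym]
      · rw [hs, Equiv.swap_apply_left, Equiv.swap_apply_of_ne_of_ne (Ne.symm hij) h2]
        exact c1 j hj (Ne.symm hij) h2
    by_cases h2 : i = b
    · rw [h2] at hij ⊢
      by_cases h3 : j = a
      · rw [h3, hs, Equiv.swap_apply_left, Equiv.swap_apply_right, ← hsym]
      · rw [hs, Equiv.swap_apply_right, Equiv.swap_apply_of_ne_of_ne h3 (Ne.symm hij)]
        exact c2 j hj h3 (Ne.symm hij)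
    by_cases h3 : j = a
    · rw [h3, hs, Equiv.swap_apply_left, Equiv.swap_apply_of_ne_of_ne h1 h2,
        inv' i hi a ha h1, inv' i hi b hb h2]
      exact flip _ _ (c1 i hi h1 h2)
    by_cases h4 : j = b
    · rw [h4, hs, Equiv.swap_apply_right, Equiv.swap_apply_of_ne_of_ne h1 h2,
        inv' i hi a ha h1, inv' i hi b hb h2]
      exact flip _ _ (c2 i hi h1 h2)
    rw [hs, Equiv.swap_apply_of_ne_of_ne h1 h2, Equiv.swap_apply_of_ne_of_ne h3 h4]
    exact hx.comm a ha b hb i hi j hj hab hij (Ne.symm h1) (Ne.symm h3) (Ne.symm h2) (Ne.symm h4)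
  have hUs : (U.map s).Nodup := hU.map hsi
  have hNs : ∀ c ∈ U.map s, c ∈ N := by
    intro c hc
    obtain ⟨d, hd, rfl⟩ := List.mem_map.1 hc
    exact hsN d (hN d hd)
  refine gallery (p := fun V => x a b * X x U V = X x (U.map s) (V.map s) * x a b) ?_ ?_ h
  · rw [X_self x hU, X_self x hUs, mul_one, one_mul]
  · intro A i j B hp hq
    have hp' : (U.map s).Perm (A.map s ++ s i :: s j :: B.map s) := by
      have := hp.map s
      simpa using this
    have hiU : i ∈ U := hp.mem_iff.2 (by simp)
    have hjU : j ∈ U := hp.mem_iff.2 (by simp)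
    have hij : i ≠ j := by
      have h5 := hp.nodup_iff.1 hU
      rw [List.nodup_append] at h5
      intro hh
      simp [hh] at h5
    have e1 := X_step hx.toYB hU hN hp
    have e2 := X_step hx.toYB hUs hNs hp'
    have e3 : (A ++ j :: i :: B).map s = A.map s ++ s j :: s i :: B.map s := by simp
    have e4 : (A ++ i :: j :: B).map s = A.map s ++ s i :: s j :: B.map s := by simp
    rw [e1, e3, e2, ← mul_assoc, hq, e4, mul_assoc, one i (hN i hiU) j (hN j hjU) hij, mul_assoc]

theorem perm_map_swap {U : List L} {a b : L} (hU : U.Nodup) (ha : a ∈ U) (hb : b ∈ U) :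
    U.Perm (U.map (Equiv.swap a b)) := by
  rw [List.perm_ext_iff_of_nodup hU (hU.map (Equiv.swap a b).injective)]
  intro c
  rw [List.mem_map]
  constructor
  · intro hc
    refine ⟨Equiv.swap a b c, ?_, swap_swap_ap a b c⟩
    by_cases h1 : c = a
    · rw [h1, Equiv.swap_apply_left]; exact hb
    by_cases h2 : c = b
    · rw [h2, Equiv.swap_apply_right]; exact ha
    rw [Equiv.swap_apply_of_ne_of_ne h1 h2]; exact hc
  · rintro ⟨d, hd, rfl⟩
    by_cases h1 : d = a
    · rw [h1, Equiv.swap_apply_left]; exact hb
    by_cases h2 : d = b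
    · rw [h2, Equiv.swap_apply_right]; exact ha
    rw [Equiv.swap_apply_of_ne_of_ne h1 h2]; exact hd

/-- (T3) -/
theorem X_relabel (hx : TYB N t x) {U₁ U₂ Z : List L} (hZ : Z.Nodup) (hN : ∀ a ∈ Z, a ∈ N)
    (hU : U₁.Nodup) (h : U₁.Perm U₂) (hs : ∀ a ∈ U₁, a ∈ Z) (ht : U₁.map t = U₂.map t) :
    ∃ Z' : List L, Z.Perm Z' ∧ X x Z Z' = X x U₁ U₂ := by
  induction U₂ generalizing U₁ Z with
  | nil =>
    have := h.eq_nil
    subst this
    exact ⟨Z, List.Perm.refl _, by rw [X_self x hZ]; rfl⟩
  | cons b U₂ ih =>
    cases U₁ with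
    | nil => exact absurd h.length_eq (by simp)
    | cons a U₁ =>
      simp only [List.map_cons, List.cons.injEq] at ht
      by_cases hab : a = b
      · subst hab
        rw [X_cons_self]
        exact ih hZ hN (List.nodup_cons.1 hU).2 ((List.perm_cons a).1 h)
          (fun c hc => hs c (by simp [hc])) ht.2
      · have haZ : a ∈ Z := hs a (by simp)
        have hbU : b ∈ a :: U₁ := h.mem_iff.2 (by simp)
        have hbZ : b ∈ Z := hs b hbU
        have haU : a ∈ a :: U₁ := by simp
        have hUN : ∀ c ∈ a :: U₁, c ∈ N := fun c hc => hN c (hs c hc)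
        have hpU := perm_map_swap hU haU hbU
        have hpZ := perm_map_swap hZ haZ hbZ
        have e1 : (a :: U₁).map (Equiv.swap a b) = b :: U₁.map (Equiv.swap a b) := by
          rw [List.map_cons, Equiv.swap_apply_left]
        have hcons : (U₁.map (Equiv.swap a b)).Perm U₂ := by
          rw [e1] at hpU
          exact (List.perm_cons b).1 (hpU.symm.trans h)
        have htm : ∀ l : List L, (l.map (Equiv.swap a b)).map t = l.map t := by
          intro l
          rw [List.map_map]
          refine List.map_congr_left fun c _ => ?_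
          rw [Function.comp_apply]
          by_cases h1 : c = a
          · rw [h1, Equiv.swap_apply_left, ht.1]
          by_cases h2 : c = b
          · rw [h2, Equiv.swap_apply_right, ht.1]
          rw [Equiv.swap_apply_of_ne_of_ne h1 h2]
        obtain ⟨Z', hZ', hX⟩ := ih (U₁ := U₁.map (Equiv.swap a b)) (Z := Z)
          hZ hN ((List.nodup_cons.1 hU).2.map (Equiv.swap a b).injective) hcons
          (fun c hc => hs c (by
            have : c ∈ (a :: U₁).map (Equiv.swap a b) := by
              rw [e1]; simp only [List.mem_cons]; exact Or.inr hc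
            exact hpU.mem_iff.2 this))
          (by rw [htm]; exact ht.2)
        -- start from the list with the labels exchanged
        obtain ⟨Z'', hZ'', hX'⟩ := ih (U₁ := U₁.map (Equiv.swap a b))
          (Z := Z.map (Equiv.swap a b)) (hZ.map (Equiv.swap a b).injective)
          (fun c hc => hN c (hpZ.mem_iff.2 hc))
          ((List.nodup_cons.1 hU).2.map (Equiv.swap a b).injective) hcons
          (fun c hc => hpZ.mem_iff.1 (hs c (by
            have : c ∈ (a :: U₁).map (Equiv.swap a b) := by
              rw [e1]; simp only [List.mem_cons]; exact Or.inr hc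
            exact hpU.mem_iff.2 this)))
          (by rw [htm]; exact ht.2)
        refine ⟨Z'', hpZ.trans hZ'', ?_⟩
        rw [← X_mul hx.toYB hZ hN hpZ hZ'', X_swap hx hZ hN haZ hbZ hab ht.1, hX']
        rw [← X_mul hx.toYB hU hUN hpU (hpU.symm.trans h), X_swap hx hU hUN haU hbU hab ht.1, e1,
          X_cons_self]

/-- Independence of the list: the element of a permutation which preserves the types. -/
theorem X_map_perm (hx : TYB N t x) (s : Equiv.Perm L) (hs : ∀ a ∈ N, t (s a) = t a)
    {U V : List L} (hU : U.Nodup) (hN : ∀ a ∈ U, a ∈ N) (h : U.Perm V)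
    (hsU : U.Perm (U.map s)) : X x U (U.map s) = X x V (V.map s) := by
  induction hn : (U.toFinset.filter (fun c => s c ≠ c)).card using Nat.strong_induction_on
    generalizing s with
  | _ n ih =>
    have hV : V.Nodup := h.nodup_iff.1 hU
    have hNV : ∀ a ∈ V, a ∈ N := fun a ha => hN a (h.mem_iff.2 ha)
    by_cases hfix : ∀ c ∈ U, s c = c
    · have e1 : U.map s = U := by
        conv_rhs => rw [← List.map_id U]
        exact List.map_congr_left fun c hc => hfix c hc
      have e2 : V.map s = V := by
        conv_rhs => rw [← List.map_id V]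
        exact List.map_congr_left fun c hc => hfix c (h.mem_iff.2 hc)
      rw [e1, e2, X_self x hU, X_self x hV]
    · push Not at hfix
      obtain ⟨a, haU, hsa⟩ := hfix
      set b := s a with hb
      have hbU : b ∈ U := hsU.mem_iff.2 (List.mem_map.2 ⟨a, haU, hb.symm⟩)
      have hab : a ≠ b := fun hh => hsa hh.symm
      have ht : t a = t b := (hs a (hN a haU)).symm
      have hpU := perm_map_swap hU haU hbU
      have hpV := perm_map_swap hV (h.mem_iff.1 haU) (h.mem_iff.1 hbU)
      set s' : Equiv.Perm L := Equiv.swap a b * s with hs'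
      have hss : ∀ c, Equiv.swap a b (s' c) = s c := by
        intro c
        rw [hs', Equiv.Perm.mul_apply, swap_swap_ap]
      have hts : ∀ c, t (Equiv.swap a b c) = t c := by
        intro c
        by_cases h1 : c = a
        · rw [h1, Equiv.swap_apply_left, ht]
        by_cases h2 : c = b
        · rw [h2, Equiv.swap_apply_right, ht]
        rw [Equiv.swap_apply_of_ne_of_ne h1 h2]
      have hm : ∀ l : List L, l.map s = (l.map s').map (Equiv.swap a b) := by
        intro l
        rw [List.map_map]
        exact List.map_congr_left fun c _ => (hss c).symm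
      have hsU' : U.Perm (U.map s') := by
        have h1 : U.map s' = (U.map s).map (Equiv.swap a b) := by
          rw [List.map_map]
          exact List.map_congr_left fun c _ => by
            rw [hs', Equiv.Perm.mul_apply, Function.comp_apply]
        rw [h1]
        exact hpU.trans (hsU.map _)
      have hsV' : V.Perm (V.map s') := h.symm.trans (hsU'.trans (h.map _))
      have hlt : (U.toFinset.filter (fun c => s' c ≠ c)).card < n := by
        rw [← hn]
        refine Finset.card_lt_card (Finset.ssubset_iff_subset_ne.2 ⟨?_, ?_⟩)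
        · intro c hc
          rw [Finset.mem_filter] at hc ⊢
          refine ⟨hc.1, fun hsc => hc.2 ?_⟩
          have hca : c ≠ a := fun hh => hsa (by rw [hh] at hsc; exact hsc)
          have hcb : c ≠ b := by
            intro hh
            have : s c = s a := by rw [hsc, hh]
            exact hca (s.injective this)
          rw [hs', Equiv.Perm.mul_apply, hsc, Equiv.swap_apply_of_ne_of_ne hca hcb]
        · intro heq
          have h1 : a ∈ U.toFinset.filter (fun c => s c ≠ c) := by
            rw [Finset.mem_filter]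
            exact ⟨List.mem_toFinset.2 haU, hsa⟩
          rw [← heq, Finset.mem_filter] at h1
          apply h1.2
          rw [hs', Equiv.Perm.mul_apply, ← hb, Equiv.swap_apply_right]
      have hi := ih _ hlt s' (fun c hc => by
        rw [hs', Equiv.Perm.mul_apply, hts, hs c hc]) hsU' rfl
      have key : ∀ W : List L, W.Nodup → (∀ c ∈ W, c ∈ N) → W.Perm (W.map s') → a ∈ W → b ∈ W →
          X x W (W.map s) = X x W (W.map s') * x a b := by
        intro W hW hWN hWs haW hbW
        have hnd := hWs.nodup_iff.1 hW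
        have hWN' : ∀ c ∈ W.map s', c ∈ N := fun c hc => hWN c (hWs.mem_iff.2 hc)
        have haW' := hWs.mem_iff.1 haW
        have hbW' := hWs.mem_iff.1 hbW
        rw [hm W, ← X_mul hx.toYB hW hWN hWs (perm_map_swap hnd haW' hbW'),
          X_swap hx hnd hWN' haW' hbW' hab ht]
      rw [key U hU hN hsU' haU hbU, key V hV hNV hsV' (h.mem_iff.1 haU) (h.mem_iff.1 hbU), hi]

/-- The permutation which exchanges two lists. -/
theorem exists_exchange {A A' : List L} (h : (A ++ A').Nodup) (ht : A.map t = A'.map t) :
    ∃ s : Equiv.Perm L, (∀ c, t (s c) = t c) ∧ A.map s = A' ∧ A'.map s = A ∧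
      ∀ c, c ∉ A → c ∉ A' → s c = c := by
  induction A generalizing A' with
  | nil =>
    cases A' with
    | nil => exact ⟨1, by simp, by simp, by simp, by simp⟩
    | cons a' A' => simp at ht
  | cons a A ih =>
    cases A' with
    | nil => simp at ht
    | cons a' A' =>
      simp only [List.map_cons, List.cons.injEq] at ht
      have h1 : a ∉ A ∧ a ≠ a' ∧ a ∉ A' ∧ a' ∉ A ∧ a' ∉ A' ∧ (A ++ A').Nodup := by
        simp only [List.cons_append, List.nodup_cons, List.nodup_append, List.mem_append,
          List.mem_cons] at h ⊢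
        refine ⟨fun hh => h.1 (Or.inl hh), fun hh => h.1 (Or.inr (Or.inl hh)),
          fun hh => h.1 (Or.inr (Or.inr hh)), fun hh => h.2.2.2 a' hh a' (Or.inl rfl) rfl,
          h.2.2.1.1, h.2.1, h.2.2.1.2, fun c hc d hd => h.2.2.2 c hc d (Or.inr hd)⟩
      obtain ⟨h2, h3, h4, h5, h6, h7⟩ := h1
      obtain ⟨s, hs1, hs2, hs3, hs4⟩ := ih h7 ht.2
      have hsa : s a = a := hs4 a h2 h4
      have hsa' : s a' = a' := hs4 a' h5 h6
      refine ⟨s * Equiv.swap a a', ?_, ?_, ?_, ?_⟩
      · intro c
        rw [Equiv.Perm.mul_apply, hs1]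
        by_cases c1 : c = a
        · rw [c1, Equiv.swap_apply_left, ht.1]
        by_cases c2 : c = a'
        · rw [c2, Equiv.swap_apply_right, ht.1]
        rw [Equiv.swap_apply_of_ne_of_ne c1 c2]
      · rw [List.map_cons, Equiv.Perm.mul_apply, Equiv.swap_apply_left, hsa']
        congr 1
        conv_rhs => rw [← hs2]
        refine List.map_congr_left fun c hc => ?_
        rw [Equiv.Perm.mul_apply, Equiv.swap_apply_of_ne_of_ne (by rintro rfl; exact h2 hc)
          (by rintro rfl; exact h5 hc)]
      · rw [List.map_cons, Equiv.Perm.mul_apply, Equiv.swap_apply_right, hsa]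
        congr 1
        conv_rhs => rw [← hs3]
        refine List.map_congr_left fun c hc => ?_
        rw [Equiv.Perm.mul_apply, Equiv.swap_apply_of_ne_of_ne (by rintro rfl; exact h4 hc)
          (by rintro rfl; exact h6 hc)]
      · intro c hc hc'
        simp only [List.mem_cons, not_or] at hc hc'
        rw [Equiv.Perm.mul_apply, Equiv.swap_apply_of_ne_of_ne hc.1 hc'.1, hs4 c hc.2 hc'.2]

/-- (T4) -/
theorem X_block_sym (hx : TYB N t x) {A A' : List L} (h : (A ++ A').Nodup)
    (hN : ∀ a ∈ A ++ A', a ∈ N) (ht : A.map t = A'.map t) :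
    X x (A ++ A') (A' ++ A) = X x (A' ++ A) (A ++ A') := by
  obtain ⟨s, hs1, hs2, hs3, -⟩ := exists_exchange h ht
  have e1 : (A ++ A').map s = A' ++ A := by rw [List.map_append, hs2, hs3]
  have e2 : (A' ++ A).map s = A ++ A' := by rw [List.map_append, hs2, hs3]
  have := X_map_perm hx s (fun c _ => hs1 c) h hN (List.perm_append_comm (l₁ := A) (l₂ := A'))
    (by rw [e1]; exact List.perm_append_comm)
  rwa [e1, e2] at this

/-- (T4) -/
theorem X_block_conj (hx : TYB N t x) {A A' B : List L} (h : (A ++ A' ++ B).Nodup)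
    (hN : ∀ a ∈ A ++ A' ++ B, a ∈ N) (ht : A.map t = A'.map t) :
    X x (A ++ A') (A' ++ A) * X x (A ++ B) (B ++ A) =
      X x (A' ++ B) (B ++ A') * X x (A ++ A') (A' ++ A) := by
  have hAA : (A ++ A').Nodup := (List.nodup_append.1 h).1
  obtain ⟨s, hs1, hs2, hs3, hs4⟩ := exists_exchange hAA ht
  have hB : B.map s = B := by
    conv_rhs => rw [← List.map_id B]
    refine List.map_congr_left fun c hc => ?_
    have h1 : c ∉ A ++ A' := fun hh => (List.nodup_append.1 h).2.2 c hh c hc rfl
    simp only [List.mem_append, not_or] at h1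
    exact hs4 c h1.1 h1.2
  have hsN : ∀ c ∈ N, t (s c) = t c := fun c _ => hs1 c
  -- three orders of the labels
  have p1 : (A ++ A' ++ B).Perm (A' ++ B ++ A) := by
    have h1 : (A ++ (A' ++ B)).Perm ((A' ++ B) ++ A) := List.perm_append_comm
    simpa using h1
  have p2 : (A ++ A' ++ B).Perm (B ++ A' ++ A) := by
    refine p1.trans ?_
    exact List.Perm.append_right A List.perm_append_comm
  have m0 : (A ++ A' ++ B).map s = A' ++ A ++ B := by simp only [List.map_append, hs2, hs3, hB]
  have m1 : (A' ++ B ++ A).map s = A ++ B ++ A' := by simp only [List.map_append, hs2, hs3, hB]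
  have m2 : (B ++ A' ++ A).map s = B ++ A ++ A' := by simp only [List.map_append, hs2, hs3, hB]
  have p0 : (A ++ A' ++ B).Perm ((A ++ A' ++ B).map s) := by
    rw [m0]
    exact List.Perm.append_right B List.perm_append_comm
  have e1 := X_map_perm hx s hsN h hN p1 p0
  have e2 := X_map_perm hx s hsN h hN p2 p0
  rw [m0, m1] at e1
  rw [m0, m2] at e2
  have e0 : X x (A ++ A' ++ B) (A' ++ A ++ B) = X x (A ++ A') (A' ++ A) :=
    X_right hx.toYB h hN List.perm_append_comm
  rw [e0] at e1 e2
  have n1 : (A' ++ B ++ A).Nodup := p1.nodup_iff.1 h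
  have N1 : ∀ c ∈ A' ++ B ++ A, c ∈ N := fun c hc => hN c (p1.mem_iff.2 hc)
  have q1 : (A' ++ B ++ A).Perm (A ++ B ++ A') := by
    have h1 : (A ++ B ++ A').Perm (A ++ (A' ++ B)) := by
      have := List.Perm.append_left A (List.perm_append_comm (l₁ := B) (l₂ := A'))
      simpa using this
    exact (h1.trans List.perm_append_comm).symm
  have q2 : (A ++ B ++ A').Perm (B ++ A ++ A') := List.Perm.append_right A' List.perm_append_comm
  have q3 : (A' ++ B ++ A).Perm (B ++ A' ++ A) := List.Perm.append_right A List.perm_append_comm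
  have q4 : (B ++ A' ++ A).Perm (B ++ A ++ A') := by
    have := List.Perm.append_left B (List.perm_append_comm (l₁ := A') (l₂ := A))
    simpa using this
  have f1 : X x (A ++ B ++ A') (B ++ A ++ A') = X x (A ++ B) (B ++ A) :=
    X_right hx.toYB (q1.nodup_iff.1 n1) (fun c hc => N1 c (q1.mem_iff.2 hc))
      List.perm_append_comm
  have f2 : X x (A' ++ B ++ A) (B ++ A' ++ A) = X x (A' ++ B) (B ++ A') :=
    X_right hx.toYB n1 N1 List.perm_append_comm
  have g1 := X_mul hx.toYB n1 N1 q1 q2
  have g2 := X_mul hx.toYB n1 N1 q3 q4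
  rw [f1, ← e1] at g1
  rw [f2, ← e2] at g2
  rw [g1, g2]

end Pool.Agent.IET
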